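import Pool.Agent.U352.AF.Wrap

/-!
From closed affine manifolds with injective developing map to domains.
-/

set_option autoImplicit false

open Set Filter Topology MeasureTheory Pool.Agent.W689.Mk Module

namespace Pool.Agent.U352.AF

section
variable {X Γ E : Type} [TopologicalSpace X] [Group Γ] [MulAction Γ X] [NormedAddCommGroup E]
  [NormedSpace ℝ E] {dev : X → E} {hol : Γ →* (E ≃ᵃ[ℝ] E)}

theorem toDom (hloc : IsLocalHomeomorph dev)
    (hequi : ∀ (γ : Γ) (x : X), dev (γ • x) = hol γ (dev x))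
    (hpd : ∀ K : Set X, IsCompact K → {γ : Γ | ∃ x ∈ K, γ • x ∈ K}.Finite)
    (hcc : ∃ K : Set X, IsCompact K ∧ ∀ x : X, ∃ γ : Γ, ∃ k ∈ K, γ • k = x)
    (hinj : Function.Injective dev) : Dom hol (range dev) := by
  have hemb : IsOpenEmbedding dev := hloc.isOpenEmbedding_of_injective hinj
  refine ⟨hemb.isOpen_range, ?_, ?_, ?_⟩
  · rintro γ _ ⟨x, rfl⟩
    exact ⟨γ • x, hequi γ x⟩
  · intro K hK hKc
    have h1 : IsCompact (dev ⁻¹' K) := (hemb.isInducing.isCompact_preimage_iff hK).2 hKc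
    refine (hpd _ h1).subset ?_
    rintro γ ⟨y, hy, hγ⟩
    obtain ⟨x, rfl⟩ := hK hy
    exact ⟨x, hy, by rw [mem_preimage, hequi]; exact hγ⟩
  · obtain ⟨K, hK, hc⟩ := hcc
    refine ⟨dev '' K, image_subset_range _ _, hK.image hloc.continuous, ?_⟩
    rintro _ ⟨x, rfl⟩
    obtain ⟨γ, k, hk, rfl⟩ := hc x
    refine ⟨γ⁻¹, k, hk, ?_⟩
    rw [← hequi, inv_smul_smul]

theorem homeo_of_full (hloc : IsLocalHomeomorph dev) (hinj : Function.Injective dev)
    (h : range dev = univ) : IsHomeomorph dev :=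
  ⟨hloc.continuous, (hloc.isOpenEmbedding_of_injective hinj).isOpenMap,
    ⟨hinj, range_eq_univ.1 h⟩⟩

/-- restriction to a subgroup of finite index -/
theorem Dom.restrict {Ω : Set E} (D : Dom hol Ω) (H : Subgroup Γ) (hH : H.FiniteIndex)
    [FiniteDimensional ℝ E] : Dom (hol.comp H.subtype) Ω := by
  classical
  refine ⟨D.isOpen, fun γ x hx => D.inv γ x hx, ?_, ?_⟩
  · intro K hK hKc
    have h1 := D.pd K hK hKc
    have h2 : {γ : H | ∃ x ∈ K, (hol.comp H.subtype) γ x ∈ K} =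
        (fun γ : H => (γ : Γ)) ⁻¹' {γ : Γ | ∃ x ∈ K, hol γ x ∈ K} := rfl
    rw [h2]
    exact h1.preimage (Subtype.val_injective.injOn)
  · obtain ⟨K, hKΩ, hK, hcc⟩ := D.cc
    -- coset representatives
    have hfin : Finite (Γ ⧸ H) := inferInstance
    let r : Γ ⧸ H → Γ := Quotient.out
    have hr : ∀ γ : Γ, ∃ q, (r q)⁻¹ * γ ∈ H := by
      intro γ
      refine ⟨(γ : Γ ⧸ H), ?_⟩
      rw [← QuotientGroup.eq]
      exact QuotientGroup.out_eq' _
    refine ⟨⋃ q, hol (r q)⁻¹ '' K, ?_, ?_, ?_⟩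
    · refine iUnion_subset fun q => ?_
      rintro _ ⟨x, hx, rfl⟩
      exact D.inv _ x (hKΩ hx)
    · exact isCompact_iUnion fun q => hK.image (hcont _)
    · intro x hx
      obtain ⟨γ, hγ⟩ := hcc x hx
      obtain ⟨q, hq⟩ := hr γ
      refine ⟨⟨_, hq⟩, ?_⟩
      refine mem_iUnion.2 ⟨q, hol γ x, hγ, ?_⟩
      exact (hol_mul (hol := hol) (r q)⁻¹ γ x).symm

theorem vs_restrict (H : Subgroup Γ) (hH : H.FiniteIndex) (h : VS (hol.comp H.subtype)) :
    VS hol := by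
  obtain ⟨H', hH', hs⟩ := h
  refine ⟨H'.map H.subtype, ⟨?_⟩, ?_⟩
  · rw [Subgroup.index_map_subtype]
    exact mul_ne_zero hH'.index_ne_zero hH.index_ne_zero
  · rw [Subgroup.map_map]
    exact hs

end

end Pool.Agent.U352.AF
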