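import Mathlib

/-!
There are no infinitely many disjoint sets of volume at least `c` in a torus.
-/

set_option autoImplicit false

open Set Filter Topology MeasureTheory Module
open scoped Pointwise

namespace Pool.Agent.U352.AF

theorem pack {V : Type} [NormedAddCommGroup V] [NormedSpace ℝ V] [FiniteDimensional ℝ V]
    [MeasurableSpace V] [BorelSpace V] (μ : Measure V) [μ.IsAddHaarMeasure] (L : Submodule ℤ V)
    [DiscreteTopology L] [IsZLattice ℝ L] (P : ℕ → Set V) (hm : ∀ n, MeasurableSet (P n))
    (c : ENNReal) (hc : c ≠ 0) (hP : ∀ n, c ≤ μ (P n))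
    (hd : ∀ n m, ∀ t ∈ L, (n ≠ m ∨ t ≠ 0) → ∀ v ∈ P n, v + t ∉ P m) : False := by
  classical
  have : VAddInvariantMeasure L V μ :=
    inferInstanceAs (VAddInvariantMeasure L.toAddSubgroup V μ)
  let b := Free.chooseBasis ℤ L
  have hF := ZLattice.isAddFundamentalDomain b μ
  have hfin : μ (ZSpan.fundamentalDomain (b.ofZLatticeBasis ℝ)) ≠ ⊤ := by
    have hb := ZSpan.fundamentalDomain_isBounded (b.ofZLatticeBasis ℝ)
    exact hb.measure_lt_top.ne
  set F := ZSpan.fundamentalDomain (b.ofZLatticeBasis ℝ) with hFdef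
  have hle : ∀ N : ℕ, (N : ENNReal) * c ≤ μ F := by
    intro N
    let P' : Set V := ⋃ n ∈ Finset.range N, P n
    have hP'm : MeasurableSet P' := Finset.measurableSet_biUnion _ fun n _ => hm n
    have h1 : μ P' ≤ μ F := by
      refine hF.measure_le_of_pairwise_disjoint hP'm.nullMeasurableSet ?_
      intro s t hst
      refine Disjoint.aedisjoint ?_
      show Disjoint ((s +ᵥ P') ∩ F) ((t +ᵥ P') ∩ F)
      refine Disjoint.mono inter_subset_left inter_subset_left ?_
      rw [Set.disjoint_left]
      rintro v hv hv'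
      rw [mem_vadd_set] at hv hv'
      obtain ⟨p, hp, rfl⟩ := hv
      obtain ⟨q, hq, he⟩ := hv'
      obtain ⟨n, -, hpn⟩ := mem_iUnion₂.1 hp
      obtain ⟨m, -, hqm⟩ := mem_iUnion₂.1 hq
      have he' : (t : V) + q = (s : V) + p := he
      have h2 : p + ((s : V) - t) = q := by
        have : q = (s : V) + p - t := by rw [← he']; abel
        rw [this]; abel
      refine hd n m ((s : V) - t) (L.sub_mem s.2 t.2) (Or.inr ?_) p hpn (by rw [h2]; exact hqm)
      rw [sub_ne_zero]
      exact fun h => hst (Subtype.ext h)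
    have h2 : μ P' = ∑ n ∈ Finset.range N, μ (P n) := by
      refine measure_biUnion_finset ?_ fun n _ => hm n
      intro n _ m _ hnm
      show Disjoint (P n) (P m)
      rw [Set.disjoint_left]
      intro v hv hv'
      exact hd n m 0 L.zero_mem (Or.inl hnm) v hv (by rw [add_zero]; exact hv')
    calc (N : ENNReal) * c = ∑ n ∈ Finset.range N, c := by
          rw [Finset.sum_const, Finset.card_range, nsmul_eq_mul]
      _ ≤ ∑ n ∈ Finset.range N, μ (P n) := Finset.sum_le_sum fun n _ => hP n
      _ = μ P' := h2.symm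
      _ ≤ μ F := h1
  rcases eq_or_ne c ⊤ with hct | hct
  · have := hle 1
    rw [hct, Nat.cast_one, one_mul, top_le_iff] at this
    exact hfin this
  · obtain ⟨N, hN⟩ := ENNReal.exists_nat_mul_gt hc hfin
    exact absurd (hle N) (not_le.2 hN)

end Pool.Agent.U352.AF
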