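import Pool.Agent.U352.AF.DetB
import Pool.Agent.U352.AF.Pack

/-!
A closed affine manifold `Γ \ Ω` is complete in the directions in which the group translates the
leaves.
-/

set_option autoImplicit false

open Set Filter Topology MeasureTheory Pool.Agent.W689.Mk Module

namespace Pool.Agent.U352.AF

variable {Γ E : Type} [Group Γ] [NormedAddCommGroup E] [NormedSpace ℝ E]
  {hol : Γ →* (E ≃ᵃ[ℝ] E)} {Ω : Set E} {V : Submodule ℝ E}

/-- the first exit of a segment from an open set -/
theorem first_exit {Ω : Set E} (hΩ : IsOpen Ω) {x v : E} (hx : x ∈ Ω) (hout : x + v ∉ Ω) :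
    ∃ (t : ℝ) (s : ℕ → ℝ), x + t • v ∉ Ω ∧ (∀ n, x + s n • v ∈ Ω) ∧ Tendsto s atTop (𝓝 t) ∧
      ∀ n, s n ∈ Icc (0 : ℝ) 1 := by
  let I : Set ℝ := {s : ℝ | s ∈ Icc (0 : ℝ) 1 ∧ x + s • v ∉ Ω}
  have hcont : Continuous fun s : ℝ => x + s • v := by fun_prop
  have hI : IsClosed I := by
    have : I = Icc (0 : ℝ) 1 ∩ (fun s : ℝ => x + s • v) ⁻¹' Ωᶜ := rfl
    rw [this]
    exact isClosed_Icc.inter (hΩ.isClosed_compl.preimage hcont)
  have hne : I.Nonempty := ⟨1, ⟨zero_le_one, le_rfl⟩, by rw [one_smul]; exact hout⟩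
  have hbdd : BddBelow I := ⟨0, fun s hs => hs.1.1⟩
  have ht := hI.csInf_mem hne hbdd
  set t := sInf I with htdef
  have ht0 : 0 < t := by
    rcases eq_or_lt_of_le ht.1.1 with h0 | h0
    · exfalso
      apply ht.2
      rw [← h0, zero_smul, add_zero]
      exact hx
    · exact h0
  have hs : ∀ n : ℕ, t * ((n + 1 : ℝ) / (n + 2)) < t := by
    intro n
    have h1 : ((n : ℝ) + 1) / (n + 2) < 1 := by
      rw [div_lt_one (by positivity)]; linarith
    calc t * (((n : ℝ) + 1) / (n + 2)) < t * 1 := by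
          apply mul_lt_mul_of_pos_left h1 ht0
      _ = t := mul_one t
  refine ⟨t, fun n => t * ((n + 1 : ℝ) / (n + 2)), ht.2, ?_, ?_, ?_⟩
  · intro n
    by_contra hn
    have h1 : t * ((n + 1 : ℝ) / (n + 2)) ∈ I :=
      ⟨⟨by positivity, (hs n).le.trans ht.1.2⟩, hn⟩
    exact absurd (csInf_le hbdd h1) (not_le.2 (hs n))
  · have h1 : Tendsto (fun n : ℕ => ((n : ℝ) + 1) / (n + 2)) atTop (𝓝 1) := by
      have h2 : Tendsto (fun n : ℕ => 1 - 1 / ((n : ℝ) + 2)) atTop (𝓝 (1 - 0)) := by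
        refine tendsto_const_nhds.sub ?_
        have h3 : Tendsto (fun n : ℕ => (n : ℝ) + 2) atTop atTop :=
          tendsto_atTop_add_const_right _ _ tendsto_natCast_atTop_atTop
        have h4 := h3.inv_tendsto_atTop
        refine h4.congr fun n => ?_
        rw [one_div]; rfl
      rw [sub_zero] at h2
      refine h2.congr fun n => ?_
      have : (n : ℝ) + 2 ≠ 0 := by positivity
      field_simp
      ring
    have h2 := h1.const_mul t
    rw [mul_one] at h2
    exact h2
  · intro n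
    exact ⟨by positivity, (hs n).le.trans ht.1.2⟩

variable [FiniteDimensional ℝ E]

theorem lin_cont (γ : Γ) : Continuous fun v : E => lin hol γ v :=
  ((hol γ).linear : E →ₗ[ℝ] E).continuous_of_finiteDimensional

/-- `Ω` is a union of leaves. -/
theorem vcomplete (D : Dom hol Ω) (hV : LInv hol V) {x₀ : E} (hx₀ : x₀ ∈ Ω)
    (h : Submodule.span ℝ (LZ hol V x₀ : Set V) = ⊤) {x v : E} (hx : x ∈ Ω) (hv : v ∈ V) :
    x + v ∈ Ω := by
  classical
  by_contra hout
  have hspan := LZ_lattice D hx₀ hx h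
  have hdisc := LZ_disc (V := V) D hx
  have hlat : IsZLattice ℝ (LZ hol V x) := ⟨hspan⟩
  obtain ⟨t, s, hb, hsΩ, hst, hs1⟩ := first_exit D.isOpen hx hout
  obtain ⟨K, hKΩ, hK, hcc⟩ := D.cc
  choose g hg using fun n => hcc _ (hsΩ n)
  obtain ⟨r, hr, hthick, hgap⟩ := exists_gap (V := V) D hK hKΩ
  have hK' : IsCompact (Metric.cthickening r K) := hK.cthickening
  have hF := D.pd _ hthick hK'
  set F := {γ : Γ | ∃ x ∈ Metric.cthickening r K, hol γ x ∈ Metric.cthickening r K} with hFdef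
  have hnear : ∀ (n : ℕ) (w : E), ‖lin hol (g n) (w - s n • v)‖ < r →
      hol (g n) (x + w) ∈ Metric.cthickening r K := by
    intro n w hw
    apply Metric.mem_cthickening_of_dist_le _ _ r K (hg n)
    rw [dist_eq_norm, hol_sub]
    have : x + w - (x + s n • v) = w - s n • v := by abel
    rw [this]
    exact hw.le
  by_cases hA : ∃ S : Finset ℕ, ∀ m : ℕ, ∃ n ∈ S, ∃ τ : Γ, Tr hol V τ ∧ g m * τ * (g n)⁻¹ ∈ F
  · -- the elements `g m` are in finitely many cosets
    obtain ⟨S, hS⟩ := hA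
    let H : Set Γ := image2 (fun φ n => φ * g n) F (S : Set ℕ)
    have hHfin : H.Finite := hF.image2 _ S.finite_toSet
    have h1 : ∀ m : ℕ, ∃ h ∈ H, ∃ τ : Γ, Tr hol V τ ∧ g m = h * τ := by
      intro m
      obtain ⟨n, hn, τ, hτ, hmem⟩ := hS m
      refine ⟨g m * τ * (g n)⁻¹ * g n, ⟨_, hmem, n, hn, rfl⟩, τ⁻¹, hτ.inv, ?_⟩
      group
    obtain ⟨k, -, hk⟩ : ∃ k ∈ H, ∃ᶠ m in (atTop : Filter ℕ), ∃ τ : Γ, Tr hol V τ ∧
        g m = k * τ := by
      by_contra hcon
      push Not at hcon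
      have h2 : ∀ k ∈ H, ∀ᶠ m in (atTop : Filter ℕ), ¬ ∃ τ : Γ, Tr hol V τ ∧ g m = k * τ := by
        intro k hk
        refine (hcon k hk).mono ?_
        rintro m hm ⟨τ, h5, h6⟩
        exact hm τ h5 h6
      have h3 := (Filter.eventually_all_finite hHfin).2 h2
      obtain ⟨m, hm⟩ := h3.exists
      obtain ⟨k, hk, hτ⟩ := h1 m
      exact hm k hk hτ
    let K₁ : Set E := hol k⁻¹ '' K
    have hK₁ : IsCompact K₁ := hK.image (hcont _)
    have hK₁Ω : K₁ ⊆ Ω := by
      rintro _ ⟨y, hy, rfl⟩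
      exact D.inv _ y (hKΩ hy)
    obtain ⟨R, hR⟩ := hK₁.isBounded.exists_norm_le
    -- the translations are bounded
    let W : Set V := {w : V | w ∈ LZ hol V x ∧ ‖w‖ ≤ R + ‖x‖ + ‖v‖}
    have hWfin : W.Finite := by
      have h2 : IsClosed ((LZ hol V x : Submodule ℤ V) : Set V) :=
        AddSubgroup.isClosed_of_discrete (H := (LZ hol V x).toAddSubgroup)
      have h3 := Metric.finite_isBounded_inter_isClosed (s := ((LZ hol V x : Submodule ℤ V) : Set V))
        (K := Metric.closedBall (0 : V) (R + ‖x‖ + ‖v‖)) ⟨hdisc⟩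
        Metric.isBounded_closedBall h2
      refine h3.subset ?_
      rintro w ⟨hw1, hw2⟩
      exact ⟨by rwa [mem_closedBall_zero_iff], hw1⟩
    have h2 : ∃ᶠ m in (atTop : Filter ℕ), ∃ w ∈ W, x + s m • v + (w : E) ∈ K₁ := by
      refine hk.mono ?_
      rintro m ⟨τ, hτ, he⟩
      have h3 : hol τ (x + s m • v) ∈ K₁ := by
        refine ⟨hol (g m) (x + s m • v), hg m, ?_⟩
        rw [he, hol_mul, hol_inv_apply]
      have h4 : disp hol τ (x + s m • v) = disp hol τ x := hτ.disp_add x (V.smul_mem _ hv)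
      have h5 : hol τ (x + s m • v) = x + s m • v + disp hol τ x := by
        rw [hol_eq τ (x + s m • v), h4]
      refine ⟨⟨disp hol τ x, hτ.1 x⟩, ⟨?_, ?_⟩, ?_⟩
      · rw [mem_LZ]
        exact ⟨fun z => disp hol τ z, ⟨τ, hτ, fun _ => rfl⟩, rfl⟩
      · show ‖disp hol τ x‖ ≤ _
        have h6 : disp hol τ x = hol τ (x + s m • v) - x - s m • v := by
          rw [h5]; abel
        rw [h6]
        have h7 := hR _ h3
        have h8 : ‖s m • v‖ ≤ ‖v‖ := by
          rw [norm_smul, Real.norm_eq_abs, abs_of_nonneg (hs1 m).1]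
          exact mul_le_of_le_one_left (norm_nonneg _) (hs1 m).2
        calc ‖hol τ (x + s m • v) - x - s m • v‖
            ≤ ‖hol τ (x + s m • v) - x‖ + ‖s m • v‖ := norm_sub_le _ _
          _ ≤ ‖hol τ (x + s m • v)‖ + ‖x‖ + ‖v‖ := add_le_add (norm_sub_le _ _) h8
          _ ≤ R + ‖x‖ + ‖v‖ := by linarith
      · rw [← h5]
        exact h3
    obtain ⟨w, hw, hw'⟩ : ∃ w ∈ W, ∃ᶠ m in (atTop : Filter ℕ), x + s m • v + (w : E) ∈ K₁ := by
      by_contra hcon
      push Not at hcon
      have h3 : ∀ w ∈ W, ∀ᶠ m in (atTop : Filter ℕ), ¬ x + s m • v + (w : E) ∈ K₁ := by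
        intro w hw
        exact hcon w hw
      have h4 := (Filter.eventually_all_finite hWfin).2 h3
      obtain ⟨m, ⟨w, hw, hw2⟩, hm⟩ := (h2.and_eventually h4).exists
      exact hm w hw hw2
    have hlim : Tendsto (fun m => x + s m • v + (w : E)) atTop (𝓝 (x + t • v + (w : E))) :=
      ((hst.smul_const v).const_add x).add_const _
    have h3 : x + t • v + (w : E) ∈ K₁ := hK₁.isClosed.mem_of_frequently_of_tendsto hw' hlim
    obtain ⟨f, ⟨τ, hτ, hf⟩, hfx⟩ := mem_LZ.1 hw.1
    have h4 : hol τ (x + t • v) = x + t • v + (w : E) := by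
      rw [hol_eq τ (x + t • v), hτ.disp_add x (V.smul_mem _ hv), ← hf, hfx]
    apply hb
    rw [← hol_inv_apply (hol := hol) τ (x + t • v), h4]
    exact D.inv _ _ (hK₁Ω h3)
  · -- there are infinitely many disjoint ellipsoids
    push Not at hA
    obtain ⟨φ, -, hφ⟩ := exists_seq_of_forall_finset_exists (fun _ : ℕ => True)
      (fun n m => ∀ τ : Γ, Tr hol V τ → g m * τ * (g n)⁻¹ ∉ F)
      (fun S _ => (hA S).imp fun m hm => ⟨trivial, fun n hn τ hτ => hm n hn τ hτ⟩)
    have hsymm : ∀ γ ∈ F, γ⁻¹ ∈ F := by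
      rintro γ ⟨y, hy, hy'⟩
      exact ⟨hol γ y, hy', by rw [hol_inv_apply]; exact hy⟩
    have hφ' : ∀ k l, k ≠ l → ∀ τ : Γ, Tr hol V τ → g (φ l) * τ * (g (φ k))⁻¹ ∉ F := by
      intro k l hkl τ hτ hmem
      rcases lt_or_gt_of_ne hkl with h1 | h1
      · exact hφ k l h1 τ hτ hmem
      · refine hφ l k h1 τ⁻¹ hτ.inv ?_
        have := hsymm _ hmem
        have h2 : (g (φ l) * τ * (g (φ k))⁻¹)⁻¹ = g (φ k) * τ⁻¹ * (g (φ l))⁻¹ := by group
        rwa [h2] at this
    obtain ⟨M, hM, hMb⟩ := det_bound D hV hx hspan hK hKΩ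
    letI : MeasurableSpace V := borel V
    haveI : BorelSpace V := ⟨rfl⟩
    let μ : Measure V := Measure.addHaar
    let v' : V := ⟨v, hv⟩
    let P : ℕ → Set V := fun k =>
      (fun w : V => w + -(s (φ k) • v')) ⁻¹' (⇑(Bm hV (g (φ k))) ⁻¹' Metric.ball (0 : V) r)
    have hPmem : ∀ (k : ℕ) (w : V), w ∈ P k ↔ ‖lin hol (g (φ k)) ((w : E) - s (φ k) • v)‖ < r := by
      intro k w
      show Bm hV (g (φ k)) (w + -(s (φ k) • v')) ∈ Metric.ball (0 : V) r ↔ _
      rw [mem_ball_zero_iff]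
      have : ((w + -(s (φ k) • v') : V) : E) = (w : E) - s (φ k) • v := by
        rw [sub_eq_add_neg]; rfl
      rw [← this]
      rfl
    refine pack μ (LZ hol V x) P ?_ (ENNReal.ofReal M⁻¹ * μ (Metric.ball (0 : V) r)) ?_ ?_ ?_
    · intro k
      refine IsOpen.measurableSet ?_
      refine (Metric.isOpen_ball.preimage
        (Bm hV (g (φ k))).continuous_of_finiteDimensional).preimage ?_
      exact continuous_id.add continuous_const
    · refine mul_ne_zero ?_ (Metric.measure_ball_pos μ _ hr).ne'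
      rw [ENNReal.ofReal_ne_zero_iff]
      positivity
    · intro k
      have h1 : μ (P k) = ENNReal.ofReal |(LinearMap.det (Bm hV (g (φ k))))⁻¹| *
          μ (Metric.ball (0 : V) r) := by
        rw [← Measure.addHaar_preimage_linearMap μ (det_Bm_ne hV _)]
        exact measure_preimage_add_right μ _ _
      rw [h1]
      refine mul_le_mul_left ?_ _
      apply ENNReal.ofReal_le_ofReal
      have h2 := hMb (g (φ k)) (s (φ k) • v) (V.smul_mem _ hv) (hg (φ k))
      have h3 := det_Bm_inv hV (g (φ k))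
      have h4 : (LinearMap.det (Bm hV (g (φ k))))⁻¹ = LinearMap.det (Bm hV (g (φ k))⁻¹) :=
        (eq_inv_of_mul_eq_one_left h3).symm
      rw [h4]
      rw [inv_eq_one_div, div_le_iff₀ hM]
      exact h2
    · intro k l u hu hne w hw hw'
      rw [hPmem] at hw hw'
      obtain ⟨f, hf, hfx⟩ := mem_LZ.1 hu
      obtain ⟨τ, hτ, hfτ⟩ := hf
      have h1 : hol τ (x + w) = x + ((w + u : V) : E) := by
        rw [hol_eq τ (x + w), hτ.disp_add x w.2, ← hfτ, hfx]
        show x + (w : E) + (u : E) = x + ((w : E) + (u : E))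
        abel
      have h2 : g (φ l) * τ * (g (φ k))⁻¹ ∈ F := by
        refine ⟨hol (g (φ k)) (x + w), hnear _ _ hw, ?_⟩
        rw [hol_mul, hol_mul, hol_inv_apply, h1]
        exact hnear _ _ hw'
      by_cases hkl : k = l
      · subst hkl
        have hu0 : u ≠ 0 := by
          rcases hne with h3 | h3
          · exact absurd rfl h3
          · exact h3
        -- `u` is mapped to a short vector
        have h3 : ‖lin hol (g (φ k)) (u : E)‖ < 2 * r := by
          have h4 : lin hol (g (φ k)) (u : E) =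
              lin hol (g (φ k)) (((w + u : V) : E) - s (φ k) • v) -
                lin hol (g (φ k)) ((w : E) - s (φ k) • v) := by
            show (hol (g (φ k))).linear (u : E) = (hol (g (φ k))).linear _ -
              (hol (g (φ k))).linear _
            rw [← map_sub]
            congr 1
            show (u : E) = ((w : E) + (u : E)) - s (φ k) • v - ((w : E) - s (φ k) • v)
            abel
          rw [h4]
          calc _ ≤ _ := norm_sub_le _ _
            _ < 2 * r := by linarith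
        let σ : Γ := g (φ k) * τ * (g (φ k))⁻¹
        have hσ : Tr hol V σ := by
          have := hτ.conj hV (g (φ k))⁻¹
          rwa [inv_inv] at this
        have h5 : disp hol σ (hol (g (φ k)) (x + s (φ k) • v)) = lin hol (g (φ k)) (u : E) := by
          have h6 := disp_conj (hol := hol) τ (g (φ k))⁻¹ (hol (g (φ k)) (x + s (φ k) • v))
          rw [inv_inv, hol_inv_apply, hτ.disp_add x (V.smul_mem _ hv), ← hfτ, hfx] at h6
          exact h6
        have h7 := hgap _ (hg (φ k)) (fun z => disp hol σ z) ⟨σ, hσ, fun _ => rfl⟩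
          (by rw [h5]; exact h3)
        have h8 : lin hol (g (φ k)) (u : E) = 0 := by
          rw [← h5]
          exact congrFun h7 _
        apply hu0
        apply Subtype.ext
        rw [← lin_inv_apply (hol := hol) (g (φ k)) (u : E), h8]
        exact map_zero _
      · exact hφ' k l hkl τ hτ h2

end Pool.Agent.U352.AF
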