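import Pool.Agent.U352.AF.Lat

/-!
The determinants of the linear holonomy along the leaves are bounded: the holonomy maps the lattices
of the leaves to each other.
-/

set_option autoImplicit false

open Set Filter Topology MeasureTheory Pool.Agent.W689.Mk Module

namespace Pool.Agent.U352.AF

variable {Γ E : Type} [Group Γ] [NormedAddCommGroup E] [NormedSpace ℝ E]
  {hol : Γ →* (E ≃ᵃ[ℝ] E)} {Ω : Set E} {V : Submodule ℝ E}

/-- the linear holonomy on `V` -/
def Bm (hV : LInv hol V) (γ : Γ) : V →ₗ[ℝ] V :=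
  ((hol γ).linear : E →ₗ[ℝ] E).restrict (hV γ)

theorem Bm_apply (hV : LInv hol V) (γ : Γ) (v : V) : (Bm hV γ v : E) = lin hol γ v := rfl

theorem Bm_inv (hV : LInv hol V) (γ : Γ) (v : V) : Bm hV γ⁻¹ (Bm hV γ v) = v :=
  Subtype.ext (by rw [Bm_apply, Bm_apply, lin_inv_apply])

theorem det_Bm_inv (hV : LInv hol V) (γ : Γ) :
    LinearMap.det (Bm hV γ⁻¹) * LinearMap.det (Bm hV γ) = 1 := by
  rw [← LinearMap.det_comp]
  have : Bm hV γ⁻¹ ∘ₗ Bm hV γ = LinearMap.id := LinearMap.ext fun v => Bm_inv hV γ v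
  rw [this, LinearMap.det_id]

theorem det_Bm_ne (hV : LInv hol V) (γ : Γ) : LinearMap.det (Bm hV γ) ≠ 0 :=
  right_ne_zero_of_mul_eq_one (det_Bm_inv hV γ)

theorem conj_mem_LZ (hV : LInv hol V) {f : E → E} (hf : f ∈ DG hol V) (γ : Γ) (x : E) :
    Bm hV γ⁻¹ ⟨f (hol γ x), DG_mem hf _⟩ ∈ LZ hol V x := by
  have hf' := hf
  obtain ⟨τ, h1, h2⟩ := hf'
  rw [mem_LZ]
  refine ⟨fun z => disp hol (γ⁻¹ * τ * γ) z, ⟨_, h1.conj hV γ, fun _ => rfl⟩, ?_⟩
  show disp hol (γ⁻¹ * τ * γ) x = lin hol γ⁻¹ (f (hol γ x))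
  rw [disp_conj, h2]

variable [FiniteDimensional ℝ E]

theorem det_bound (D : Dom hol Ω) (hV : LInv hol V) {x : E} (hx : x ∈ Ω)
    (h : Submodule.span ℝ (LZ hol V x : Set V) = ⊤) {K : Set E} (hK : IsCompact K)
    (hKΩ : K ⊆ Ω) : ∃ M : ℝ, 0 < M ∧ ∀ (γ : Γ) (v : E), v ∈ V → hol γ (x + v) ∈ K →
      1 ≤ |LinearMap.det (Bm hV γ⁻¹)| * M := by
  classical
  have := LZ_disc (V := V) D hx
  have : IsZLattice ℝ (LZ hol V x) := ⟨h⟩
  let bZ := Free.chooseBasis ℤ (LZ hol V x)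
  let bD := bZ.map (evE D hx).symm
  let b := bZ.ofZLatticeBasis ℝ (LZ hol V x)
  let g : Free.ChooseBasisIndex ℤ (LZ hol V x) → E → V := fun i y => ev hol V y (bD i)
  have hgc : ∀ i, Continuous (g i) := by
    intro i
    obtain ⟨τ, -, h2⟩ := (bD i).2
    refine Continuous.subtype_mk ?_ _
    have : (bD i).1 = fun y => disp hol τ y := funext h2
    rw [this]
    exact disp_cont τ
  have hbasis : ∀ y ∈ Ω, b.det (fun i => g i y) ≠ 0 := by
    intro y hy
    have := LZ_disc (V := V) D hy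
    have : IsZLattice ℝ (LZ hol V y) := ⟨LZ_lattice D hx hy h⟩
    let b' := (bD.map (evE D hy)).ofZLatticeBasis ℝ (LZ hol V y)
    have h1 : (fun i => g i y) = b' := by
      funext i
      rw [Basis.ofZLatticeBasis_apply, Basis.map_apply, evE_apply]
    rw [h1]
    have h2 := b.isUnit_det b'
    exact h2.ne_zero
  have hdc : Continuous fun y => b.det (fun i => g i y) := by
    simp only [Basis.det_apply]
    refine Continuous.matrix_det ?_
    refine continuous_matrix fun i j => ?_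
    have : (fun y => b.toMatrix (fun i => g i y) i j) = fun y => b.coord i (g j y) := rfl
    rw [this]
    exact (b.coord i).continuous_of_finiteDimensional.comp (hgc j)
  obtain ⟨C, hC⟩ := hK.exists_bound_of_continuousOn hdc.continuousOn
  refine ⟨max C 1, by positivity, ?_⟩
  intro γ v hv hγ
  have hw : ∀ i, Bm hV γ⁻¹ (g i (hol γ (x + v))) ∈ LZ hol V x := by
    intro i
    have := conj_mem_LZ hV (bD i).2 γ (x + v)
    rw [LZ_add x hv] at this
    exact this
  have h3 : b.det (⇑(Bm hV γ⁻¹) ∘ fun i => g i (hol γ (x + v))) =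
      LinearMap.det (Bm hV γ⁻¹) * b.det (fun i => g i (hol γ (x + v))) :=
    b.det_comp _ _
  have h4 : b.det (⇑(Bm hV γ⁻¹) ∘ fun i => g i (hol γ (x + v))) =
      (((Matrix.of fun i j => bZ.repr ⟨_, hw j⟩ i).det : ℤ) : ℝ) := by
    rw [Basis.det_apply]
    rw [Int.cast_det]
    congr 1
    ext i j
    show b.repr (Bm hV γ⁻¹ (g j (hol γ (x + v)))) i = _
    exact Basis.ofZLatticeBasis_repr_apply ℝ (LZ hol V x) bZ ⟨_, hw j⟩ i
  have h5 : (1 : ℝ) ≤ |b.det (⇑(Bm hV γ⁻¹) ∘ fun i => g i (hol γ (x + v)))| := by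
    have h6 : b.det (⇑(Bm hV γ⁻¹) ∘ fun i => g i (hol γ (x + v))) ≠ 0 := by
      rw [h3]
      exact mul_ne_zero (det_Bm_ne hV _) (hbasis _ (hKΩ hγ))
    rw [h4] at h6 ⊢
    have h7 : ((Matrix.of fun i j => bZ.repr ⟨_, hw j⟩ i).det : ℤ) ≠ 0 := by
      intro h0
      rw [h0] at h6
      exact h6 Int.cast_zero
    have h8 := Int.one_le_abs h7
    exact_mod_cast h8
  rw [h3, abs_mul] at h5
  refine h5.trans ?_
  refine mul_le_mul_of_nonneg_left ?_ (abs_nonneg _)
  exact (hC _ hγ).trans (le_max_left _ _)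

end Pool.Agent.U352.AF
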