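import Pool.Agent.W689.Mk.Sec

/-!
Affine actions on domains, properly discontinuous and with compact quotient, and the elements which
act as translations on the leaves of a foliation by parallel affine subspaces.
-/

set_option autoImplicit false

open Set Filter Topology MeasureTheory Pool.Agent.W689.Mk

namespace Pool.Agent.U352.AF

variable {Γ E : Type} [Group Γ] [NormedAddCommGroup E] [NormedSpace ℝ E]

/-- The group `Γ` acts by affine maps on the nonempty open set `Ω`, properly discontinuously and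
with compact quotient. -/
structure Dom (hol : Γ →* (E ≃ᵃ[ℝ] E)) (Ω : Set E) : Prop where
  isOpen : IsOpen Ω
  inv : ∀ γ : Γ, ∀ x ∈ Ω, hol γ x ∈ Ω
  pd : ∀ K ⊆ Ω, IsCompact K → {γ : Γ | ∃ x ∈ K, hol γ x ∈ K}.Finite
  cc : ∃ K ⊆ Ω, IsCompact K ∧ ∀ x ∈ Ω, ∃ γ : Γ, hol γ x ∈ K

variable {hol : Γ →* (E ≃ᵃ[ℝ] E)} {Ω : Set E}

theorem hol_mul (γ δ : Γ) (x : E) : hol (γ * δ) x = hol γ (hol δ x) := by
  rw [map_mul]; rfl

theorem lin_apply_inv (γ : Γ) (v : E) : lin hol γ (lin hol γ⁻¹ v) = v := by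
  have := lin_inv_apply (hol := hol) γ⁻¹ v
  rwa [inv_inv] at this

/-- the displacement -/
def disp (hol : Γ →* (E ≃ᵃ[ℝ] E)) (γ : Γ) (x : E) : E := hol γ x - x

theorem hol_eq (γ : Γ) (x : E) : hol γ x = x + disp hol γ x := by
  rw [disp]; abel

/-- The elements of the group which act as a translation on each leaf `x + V`, with displacement in
`V`. -/
def Tr (hol : Γ →* (E ≃ᵃ[ℝ] E)) (V : Submodule ℝ E) (γ : Γ) : Prop :=
  (∀ x, hol γ x - x ∈ V) ∧ ∀ v ∈ V, (hol γ).linear v = v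

variable {V : Submodule ℝ E}

theorem Tr.disp_add {γ : Γ} (h : Tr hol V γ) (x : E) {v : E} (hv : v ∈ V) :
    disp hol γ (x + v) = disp hol γ x := by
  have h1 : lin hol γ v = v := h.2 v hv
  rw [disp, disp, hol_add, h1]; abel

theorem Tr.disp_mul {γ δ : Γ} (h : Tr hol V γ) (h' : Tr hol V δ) (x : E) :
    disp hol (γ * δ) x = disp hol γ x + disp hol δ x := by
  have h1 := h.disp_add x (h'.1 x)
  have h2 : disp hol (γ * δ) x = disp hol γ (hol δ x) + disp hol δ x := by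
    rw [disp, disp, disp, hol_mul]; abel
  rw [h2, ← h1]
  congr 2
  abel

theorem Tr.one : Tr hol V (1 : Γ) := by
  refine ⟨fun x => ?_, fun v _ => ?_⟩
  · rw [map_one]
    show x - x ∈ V
    rw [sub_self]; exact V.zero_mem
  · rw [map_one]; rfl

theorem Tr.mul {γ δ : Γ} (h : Tr hol V γ) (h' : Tr hol V δ) : Tr hol V (γ * δ) := by
  refine ⟨fun x => ?_, fun v hv => ?_⟩
  · have := h.disp_mul h' x
    rw [disp] at this
    rw [this]
    exact V.add_mem (h.1 x) (h'.1 x)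
  · have h1 : lin hol (γ * δ) v = v := by
      rw [lin_mul]
      have h2 : lin hol δ v = v := h'.2 v hv
      rw [h2]
      exact h.2 v hv
    exact h1

theorem Tr.inv {γ : Γ} (h : Tr hol V γ) : Tr hol V γ⁻¹ := by
  have hl : ∀ v ∈ V, lin hol γ⁻¹ v = v := by
    intro v hv
    have h1 : lin hol γ v = v := h.2 v hv
    have h2 := lin_inv_apply (hol := hol) γ v
    rwa [h1] at h2
  refine ⟨fun x => ?_, fun v hv => hl v hv⟩
  have h1 : hol γ⁻¹ x - x = -(hol γ (hol γ⁻¹ x) - hol γ⁻¹ x) := by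
    rw [hol_apply_inv]; abel
  rw [h1]
  exact V.neg_mem (h.1 _)

theorem Tr.disp_inv {γ : Γ} (h : Tr hol V γ) (x : E) : disp hol γ⁻¹ x = - disp hol γ x := by
  have h1 := h.disp_mul h.inv x
  rw [mul_inv_cancel] at h1
  have h2 : disp hol (1 : Γ) x = 0 := by
    rw [disp, map_one]
    show x - x = 0
    rw [sub_self]
  rw [h2] at h1
  exact (neg_eq_of_add_eq_zero_right h1.symm).symm

/-- the invariance of a subspace under the linear holonomy -/
def LInv (hol : Γ →* (E ≃ᵃ[ℝ] E)) (V : Submodule ℝ E) : Prop :=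
  ∀ γ : Γ, ∀ v ∈ V, (hol γ).linear v ∈ V

theorem disp_conj (γ δ : Γ) (x : E) :
    disp hol (δ⁻¹ * γ * δ) x = lin hol δ⁻¹ (disp hol γ (hol δ x)) := by
  rw [disp, disp, ← hol_sub, hol_mul, hol_mul, hol_inv_apply]

theorem Tr.conj {γ : Γ} (h : Tr hol V γ) (hV : LInv hol V) (δ : Γ) :
    Tr hol V (δ⁻¹ * γ * δ) := by
  refine ⟨fun x => ?_, fun v hv => ?_⟩
  · have h1 := disp_conj (hol := hol) γ δ x
    rw [disp] at h1
    rw [h1]
    exact hV _ _ (h.1 _)
  · have h1 : lin hol (δ⁻¹ * γ * δ) v = v := by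
      rw [lin_mul, lin_mul]
      have h2 : lin hol γ (lin hol δ v) = lin hol δ v := h.2 _ (hV δ v hv)
      rw [h2, lin_inv_apply]
    exact h1

/-- the group of displacement functions -/
def DG (hol : Γ →* (E ≃ᵃ[ℝ] E)) (V : Submodule ℝ E) : AddSubgroup (E → E) where
  carrier := {f | ∃ γ : Γ, Tr hol V γ ∧ ∀ x, f x = disp hol γ x}
  add_mem' := by
    rintro f g ⟨γ, h1, h2⟩ ⟨δ, h3, h4⟩
    exact ⟨γ * δ, h1.mul h3, fun x => by rw [h1.disp_mul h3, Pi.add_apply, h2, h4]⟩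
  zero_mem' := ⟨1, Tr.one, fun x => by
    rw [disp, map_one]
    show (0 : E) = x - x
    rw [sub_self]⟩
  neg_mem' := by
    rintro f ⟨γ, h1, h2⟩
    exact ⟨γ⁻¹, h1.inv, fun x => by rw [h1.disp_inv, Pi.neg_apply, h2]⟩

/-- the group of the translations of the leaf `x + V` -/
def LG (hol : Γ →* (E ≃ᵃ[ℝ] E)) (V : Submodule ℝ E) (x : E) : AddSubgroup V where
  carrier := {v | ∃ f ∈ DG hol V, f x = v}
  add_mem' := by
    rintro v w ⟨f, h1, h2⟩ ⟨g, h3, h4⟩
    exact ⟨f + g, (DG hol V).add_mem h1 h3, by rw [Pi.add_apply, h2, h4]; rfl⟩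
  zero_mem' := ⟨0, (DG hol V).zero_mem, rfl⟩
  neg_mem' := by
    rintro v ⟨f, h1, h2⟩
    exact ⟨-f, (DG hol V).neg_mem h1, by rw [Pi.neg_apply, h2]; rfl⟩

theorem mem_LG {x : E} {v : V} : v ∈ LG hol V x ↔ ∃ γ : Γ, Tr hol V γ ∧ disp hol γ x = v := by
  constructor
  · rintro ⟨f, ⟨γ, h1, h2⟩, h3⟩
    exact ⟨γ, h1, by rw [← h2, h3]⟩
  · rintro ⟨γ, h1, h2⟩
    exact ⟨fun x => disp hol γ x, ⟨γ, h1, fun _ => rfl⟩, h2⟩

theorem LG_add (x : E) {v : E} (hv : v ∈ V) : LG hol V (x + v) = LG hol V x := by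
  ext w
  rw [mem_LG, mem_LG]
  constructor
  · rintro ⟨γ, h1, h2⟩
    exact ⟨γ, h1, by rw [← h2, h1.disp_add x hv]⟩
  · rintro ⟨γ, h1, h2⟩
    exact ⟨γ, h1, by rw [← h2, h1.disp_add x hv]⟩

section fd
variable [FiniteDimensional ℝ E]

theorem hcont (γ : Γ) : Continuous (hol γ) :=
  (hol γ).toAffineMap.continuous_of_finiteDimensional

theorem disp_cont (γ : Γ) : Continuous (disp hol γ) := (hcont γ).sub continuous_id

/-- an element with a fixed point in `Ω` which translates the leaves acts trivially -/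
theorem disp_zero (D : Dom hol Ω) {f : E → E} (hf : f ∈ DG hol V) {x : E} (hx : x ∈ Ω)
    (h : f x = 0) : f = 0 := by
  obtain ⟨γ, h1, h2⟩ := hf
  -- powers
  have hp : ∀ n : ℕ, Tr hol V (γ ^ n) ∧ ∀ z, disp hol (γ ^ n) z = (n : ℝ) • f z := by
    intro n
    induction n with
    | zero =>
      rw [pow_zero]
      refine ⟨Tr.one, fun z => ?_⟩
      rw [disp, map_one, Nat.cast_zero, zero_smul]
      show z - z = 0
      rw [sub_self]
    | succ n ih =>
      rw [pow_succ]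
      refine ⟨ih.1.mul h1, fun z => ?_⟩
      rw [ih.1.disp_mul h1, ih.2, ← h2, Nat.cast_succ, add_smul, one_smul]
  have hfin := D.pd {x} (singleton_subset_iff.2 hx) isCompact_singleton
  have hmem : ∀ n : ℕ, γ ^ n ∈ {γ : Γ | ∃ y ∈ ({x} : Set E), hol γ y ∈ ({x} : Set E)} := by
    intro n
    refine ⟨x, rfl, ?_⟩
    rw [mem_singleton_iff, hol_eq, (hp n).2, h, smul_zero, add_zero]
  obtain ⟨m, n, hmn, he⟩ : ∃ m n : ℕ, m ≠ n ∧ γ ^ m = γ ^ n := by
    by_contra hcon
    push Not at hcon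
    have hinj : Function.Injective fun n : ℕ => γ ^ n := fun m n he => by
      by_contra hne
      exact hcon m n hne he
    exact hfin.not_infinite (infinite_of_injective_forall_mem hinj hmem)
  funext z
  have h3 := (hp m).2 z
  rw [he, (hp n).2 z] at h3
  have h4 : ((n : ℝ) - m) • f z = 0 := by
    rw [sub_smul, h3, sub_self]
  rcases smul_eq_zero.1 h4 with h5 | h5
  · exfalso
    apply hmn
    have : (n : ℝ) = m := by linarith
    exact_mod_cast this.symm
  · rw [h5]; rfl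

/-- the displacements near a compact set are bounded away from zero -/
theorem exists_gap (D : Dom hol Ω) {K : Set E} (hK : IsCompact K) (hKΩ : K ⊆ Ω) :
    ∃ r > 0, Metric.cthickening r K ⊆ Ω ∧
      ∀ y ∈ K, ∀ f ∈ DG hol V, ‖f y‖ < 2 * r → f = 0 := by
  obtain ⟨ρ, hρ, hρ'⟩ := hK.exists_cthickening_subset_open D.isOpen hKΩ
  have hK' : IsCompact (Metric.cthickening ρ K) := hK.cthickening
  have hfin := D.pd _ hρ' hK'
  -- for each element of the finite set
  have h1 : ∀ γ ∈ {γ : Γ | ∃ x ∈ Metric.cthickening ρ K, hol γ x ∈ Metric.cthickening ρ K},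
      ∃ ε > 0, Tr hol V γ → (∀ y ∈ K, ‖disp hol γ y‖ < ε → ∀ z, disp hol γ z = 0) := by
    intro γ _
    by_cases hne : ∀ y ∈ K, disp hol γ y ≠ 0
    · rcases K.eq_empty_or_nonempty with hKe | hKn
      · exact ⟨1, one_pos, fun _ y hy => by rw [hKe] at hy; exact absurd hy (notMem_empty y)⟩
      obtain ⟨y, hy, hmin⟩ := hK.exists_isMinOn hKn (disp_cont (hol := hol) γ).norm.continuousOn
      refine ⟨‖disp hol γ y‖, norm_pos_iff.2 (hne y hy), fun _ z hz hlt => ?_⟩
      exact absurd hlt (not_lt.2 (hmin hz))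
    · push Not at hne
      obtain ⟨y, hy, hy0⟩ := hne
      refine ⟨1, one_pos, fun hT z hz _ w => ?_⟩
      have h2 : (fun x => disp hol γ x) = 0 :=
        disp_zero D ⟨γ, hT, fun _ => rfl⟩ (hKΩ hy) hy0
      exact congrFun h2 w
  choose! ε hε hε' using h1
  obtain ⟨r, hr, hr'⟩ : ∃ r > 0, ∀ γ ∈ {γ : Γ | ∃ x ∈ Metric.cthickening ρ K,
      hol γ x ∈ Metric.cthickening ρ K}, r < ε γ := by
    have h2 : ∀ᶠ r : ℝ in 𝓝[>] 0, ∀ γ ∈ {γ : Γ | ∃ x ∈ Metric.cthickening ρ K,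
        hol γ x ∈ Metric.cthickening ρ K}, r < ε γ :=
      (Filter.eventually_all_finite hfin).2 fun γ hγ =>
        nhdsWithin_le_nhds (Iio_mem_nhds (hε γ hγ))
    obtain ⟨r, h3, h4⟩ := (h2.and self_mem_nhdsWithin).exists
    exact ⟨r, h4, h3⟩
  refine ⟨min r ρ / 2, by positivity, ?_, ?_⟩
  · refine subset_trans (Metric.cthickening_mono ?_ K) hρ'
    have : min r ρ ≤ ρ := min_le_right _ _
    have h2 : 0 < min r ρ := lt_min hr hρ
    linarith
  · rintro y hy f ⟨γ, hT, hf⟩ hlt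
    have h2 : ‖f y‖ < r ∧ ‖f y‖ < ρ := by
      have : 2 * (min r ρ / 2) = min r ρ := by ring
      rw [this] at hlt
      exact lt_min_iff.1 hlt
    have hmem : γ ∈ {γ : Γ | ∃ x ∈ Metric.cthickening ρ K, hol γ x ∈ Metric.cthickening ρ K} := by
      refine ⟨y, Metric.self_subset_cthickening K hy, ?_⟩
      apply Metric.mem_cthickening_of_dist_le (hol γ y) y ρ K hy
      rw [dist_eq_norm]
      have := hf y
      rw [disp] at this
      rw [← this]
      exact h2.2.le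
    funext z
    rw [hf z]
    exact hε' γ hmem hT y hy (by rw [← hf y]; exact h2.1.trans (hr' γ hmem)) z

end fd

end Pool.Agent.U352.AF
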