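import Pool.Agent.U352.AF.Dom

/-!
The lattices of the translations of the leaves.
-/

set_option autoImplicit false

open Set Filter Topology MeasureTheory Pool.Agent.W689.Mk Module

namespace Pool.Agent.U352.AF

variable {Γ E : Type} [Group Γ] [NormedAddCommGroup E] [NormedSpace ℝ E]
  {hol : Γ →* (E ≃ᵃ[ℝ] E)} {Ω : Set E} {V : Submodule ℝ E}

theorem DG_mem {f : E → E} (hf : f ∈ DG hol V) (x : E) : f x ∈ V := by
  obtain ⟨γ, h1, h2⟩ := hf
  rw [h2]
  exact h1.1 x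

theorem DG_add {f : E → E} (hf : f ∈ DG hol V) (x : E) {v : E} (hv : v ∈ V) :
    f (x + v) = f x := by
  obtain ⟨γ, h1, h2⟩ := hf
  rw [h2, h2, h1.disp_add x hv]

/-- evaluation of the displacements at a point -/
def ev (hol : Γ →* (E ≃ᵃ[ℝ] E)) (V : Submodule ℝ E) (x : E) : DG hol V →+ V where
  toFun f := ⟨f.1 x, DG_mem f.2 x⟩
  map_zero' := rfl
  map_add' _ _ := rfl

/-- the lattice of the leaf -/
def LZ (hol : Γ →* (E ≃ᵃ[ℝ] E)) (V : Submodule ℝ E) (x : E) : Submodule ℤ V :=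
  LinearMap.range (ev hol V x).toIntLinearMap

theorem mem_LZ {x : E} {v : V} : v ∈ LZ hol V x ↔ ∃ f ∈ DG hol V, f x = v := by
  constructor
  · rintro ⟨f, rfl⟩
    exact ⟨f.1, f.2, rfl⟩
  · rintro ⟨f, hf, h⟩
    exact ⟨⟨f, hf⟩, Subtype.ext h⟩

theorem LZ_add (x : E) {v : E} (hv : v ∈ V) : LZ hol V (x + v) = LZ hol V x := by
  ext w
  rw [mem_LZ, mem_LZ]
  constructor
  · rintro ⟨f, h1, h2⟩
    exact ⟨f, h1, by rw [← h2, DG_add h1 x hv]⟩
  · rintro ⟨f, h1, h2⟩
    exact ⟨f, h1, by rw [← h2, DG_add h1 x hv]⟩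

variable [FiniteDimensional ℝ E]

theorem LZ_gap (D : Dom hol Ω) {x : E} (hx : x ∈ Ω) :
    ∃ r > 0, ∀ v ∈ LZ hol V x, ‖v‖ < r → v = 0 := by
  obtain ⟨r, hr, -, h⟩ := exists_gap (V := V) D (isCompact_singleton (x := x))
    (singleton_subset_iff.2 hx)
  refine ⟨2 * r, by positivity, ?_⟩
  intro v hv hlt
  obtain ⟨f, hf, he⟩ := mem_LZ.1 hv
  have h1 := h x rfl f hf (by rw [he]; exact hlt)
  apply Subtype.ext
  rw [← he, h1]
  rfl

theorem LZ_disc (D : Dom hol Ω) {x : E} (hx : x ∈ Ω) : DiscreteTopology (LZ hol V x) := by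
  obtain ⟨r, hr, h⟩ := LZ_gap (V := V) D hx
  apply discreteTopology_of_isOpen_singleton_zero
  rw [Metric.isOpen_singleton_iff]
  refine ⟨r, hr, fun y hy => ?_⟩
  apply Subtype.ext
  apply h y.1 y.2
  rw [dist_eq_norm, sub_zero] at hy
  exact hy

theorem ev_inj (D : Dom hol Ω) {x : E} (hx : x ∈ Ω) :
    Function.Injective (ev hol V x).toIntLinearMap := by
  rw [← LinearMap.ker_eq_bot, LinearMap.ker_eq_bot']
  intro f hf
  have h1 : f.1 x = 0 := congrArg Subtype.val hf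
  exact Subtype.ext (disp_zero D f.2 hx h1)

/-- the group of displacement functions is isomorphic to the lattice of each leaf in `Ω` -/
noncomputable def evE (D : Dom hol Ω) {x : E} (hx : x ∈ Ω) : DG hol V ≃ₗ[ℤ] LZ hol V x :=
  LinearEquiv.ofInjective _ (ev_inj D hx)

theorem evE_apply (D : Dom hol Ω) {x : E} (hx : x ∈ Ω) (f : DG hol V) :
    ((evE D hx f : LZ hol V x) : V) = ev hol V x f := rfl

theorem LZ_lattice (D : Dom hol Ω) {x₀ x : E} (hx₀ : x₀ ∈ Ω) (hx : x ∈ Ω)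
    (h : Submodule.span ℝ (LZ hol V x₀ : Set V) = ⊤) :
    Submodule.span ℝ (LZ hol V x : Set V) = ⊤ := by
  have key : ∀ y ∈ Ω, finrank ℝ (Submodule.span ℝ (LZ hol V y : Set V)) =
      finrank ℤ (DG hol V) := by
    intro y hy
    have hd := LZ_disc (V := V) D hy
    have h1 : Submodule.span ℤ (LZ hol V y : Set V) = LZ hol V y := Submodule.span_eq _
    have hd' : DiscreteTopology (Submodule.span ℤ (LZ hol V y : Set V)) := by
      rw [h1]; exact hd
    have h2 := Real.finrank_eq_int_finrank_of_discrete hd'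
    rw [Set.finrank, Set.finrank, h1] at h2
    rw [h2]
    exact (evE D hy).finrank_eq.symm
  apply Submodule.eq_top_of_finrank_eq
  rw [key x hx, ← key x₀ hx₀, h, finrank_top]

end Pool.Agent.U352.AF
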