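import Pool.Agent.U352.AF.Comp

/-!
The quotient of an affine action by the leaves which are translated.
-/

set_option autoImplicit false

open Set Filter Topology MeasureTheory Pool.Agent.W689.Mk Module

namespace Pool.Agent.U352.AF

variable {Γ E : Type} [Group Γ] [NormedAddCommGroup E] [NormedSpace ℝ E]
  {hol : Γ →* (E ≃ᵃ[ℝ] E)} {Ω : Set E} {V : Submodule ℝ E}

/-- `hol₁` is the affine action induced on the quotient `π : E → Q` by `V` -/
structure IsQuot {Q : Type} [NormedAddCommGroup Q] [NormedSpace ℝ Q] (hol : Γ →* (E ≃ᵃ[ℝ] E))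
    (V : Submodule ℝ E) (π : E →ₗ[ℝ] Q) (hol₁ : Γ →* (Q ≃ᵃ[ℝ] Q)) : Prop where
  surj : Function.Surjective π
  ker : ∀ x, π x = 0 ↔ x ∈ V
  equi : ∀ γ x, hol₁ γ (π x) = π (hol γ x)

section
variable {Q : Type} [NormedAddCommGroup Q] [NormedSpace ℝ Q] {π : E →ₗ[ℝ] Q}
  {hol₁ : Γ →* (Q ≃ᵃ[ℝ] Q)}

theorem IsQuot.eq_iff (q : IsQuot hol V π hol₁) (x y : E) : π x = π y ↔ x - y ∈ V := by
  rw [← q.ker, map_sub, sub_eq_zero]

theorem IsQuot.linear (q : IsQuot hol V π hol₁) (γ : Γ) (v : E) :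
    (hol₁ γ).linear (π v) = π ((hol γ).linear v) := by
  have h1 : lin hol₁ γ (π v) = hol₁ γ (π v) - hol₁ γ 0 := by rw [hol_sub, sub_zero]
  have h2 : lin hol γ v = hol γ v - hol γ 0 := by rw [hol_sub, sub_zero]
  show lin hol₁ γ (π v) = π (lin hol γ v)
  rw [h1, h2, map_sub, ← q.equi, ← q.equi, map_zero π]

end

/-- existence of the quotient -/
theorem exists_quot [FiniteDimensional ℝ E] (hV : LInv hol V) :
    ∃ (Q : Type) (_ : NormedAddCommGroup Q) (_ : NormedSpace ℝ Q) (_ : FiniteDimensional ℝ Q)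
      (π : E →ₗ[ℝ] Q) (hol₁ : Γ →* (Q ≃ᵃ[ℝ] Q)), IsQuot hol V π hol₁ := by
  obtain ⟨W, hW⟩ := V.exists_isCompl
  let π : E →ₗ[ℝ] W := W.projectionOnto V hW.symm
  have hπs : ∀ w : W, π (w : E) = w := fun w => Submodule.projectionOnto_apply_left hW.symm w
  have hker : ∀ x, π x = 0 ↔ x ∈ V := by
    intro x
    rw [← LinearMap.mem_ker, Submodule.ker_projectionOnto]
  have heq : ∀ x y, x - y ∈ V → π x = π y := by
    intro x y h
    rw [← sub_eq_zero, ← map_sub]
    exact (hker _).2 h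
  have hinv : ∀ (γ : Γ) (x y : E), π x = π y → π (hol γ x) = π (hol γ y) := by
    intro γ x y h
    apply heq
    rw [hol_sub]
    apply hV
    rw [← hker, map_sub, h, sub_self]
  have hlinv : ∀ (γ : Γ) (x y : E), π x = π y → π (lin hol γ x) = π (lin hol γ y) := by
    intro γ x y h
    apply heq
    have : lin hol γ x - lin hol γ y = lin hol γ (x - y) :=
      (map_sub ((hol γ).linear : E →ₗ[ℝ] E) x y).symm
    rw [this]
    apply hV
    rw [← hker, map_sub, h, sub_self]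
  have hs : ∀ x : E, π ((π x : W) : E) = π x := fun x => hπs _
  let A : Γ → (W ≃ᵃ[ℝ] W) := fun γ =>
    { toFun := fun w => π (hol γ w)
      invFun := fun w => π (hol γ⁻¹ w)
      left_inv := fun w => by
        show π (hol γ⁻¹ ((π (hol γ w) : W) : E)) = w
        rw [hinv γ⁻¹ _ (hol γ w) (hs _), hol_inv_apply, hπs]
      right_inv := fun w => by
        show π (hol γ ((π (hol γ⁻¹ w) : W) : E)) = w
        rw [hinv γ _ (hol γ⁻¹ w) (hs _), hol_apply_inv, hπs]
      linear :=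
        { toFun := fun w => π (lin hol γ w)
          map_add' := fun a b => by
            show π ((hol γ).linear ((a : E) + (b : E))) = _
            rw [map_add, map_add]
          map_smul' := fun c a => by
            show π ((hol γ).linear (c • (a : E))) = _
            rw [map_smul, map_smul]; rfl
          invFun := fun w => π (lin hol γ⁻¹ w)
          left_inv := fun w => by
            show π (lin hol γ⁻¹ ((π (lin hol γ w) : W) : E)) = w
            rw [hlinv γ⁻¹ _ (lin hol γ w) (hs _), lin_inv_apply, hπs]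
          right_inv := fun w => by
            show π (lin hol γ ((π (lin hol γ⁻¹ w) : W) : E)) = w
            rw [hlinv γ _ (lin hol γ⁻¹ w) (hs _), lin_apply_inv, hπs] }
      map_vadd' := fun p v => by
        show π (hol γ ((v : E) + (p : E))) = π (lin hol γ (v : E)) + π (hol γ (p : E))
        rw [add_comm (v : E) (p : E), hol_add, map_add, add_comm] }
  have hA : ∀ (γ : Γ) (w : W), A γ w = π (hol γ w) := fun _ _ => rfl
  let hol₁ : Γ →* (W ≃ᵃ[ℝ] W) :=
    { toFun := A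
      map_one' := by
        apply AffineEquiv.ext
        intro w
        rw [hA, map_one]
        exact hπs w
      map_mul' := by
        intro γ δ
        apply AffineEquiv.ext
        intro w
        rw [hA, hol_mul]
        show _ = A γ (A δ w)
        rw [hA, hA]
        exact (hinv γ _ _ (hs _)).symm }
  refine ⟨W, inferInstance, inferInstance, inferInstance, π, hol₁, ?_, hker, ?_⟩
  · intro w
    exact ⟨w, hπs w⟩
  · intro γ x
    exact hinv γ _ _ (hs x)

variable [FiniteDimensional ℝ E]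

/-- the action of the group of translations of the leaves, in coordinates -/
theorem exists_param (D : Dom hol Ω) {x₀ : E} (hx₀ : x₀ ∈ Ω)
    (h : Submodule.span ℝ (LZ hol V x₀ : Set V) = ⊤) :
    ∃ (ι : Type) (_ : Fintype ι) (g : ι → E → E), (∀ i, g i ∈ DG hol V) ∧
      ∀ x ∈ Ω, ∀ v ∈ V, ∃ s : ι → ℝ, v = ∑ i, s i • g i x := by
  classical
  have hd₀ := LZ_disc (V := V) D hx₀
  have : IsZLattice ℝ (LZ hol V x₀) := ⟨h⟩
  let bZ := Free.chooseBasis ℤ (LZ hol V x₀)
  let bD := bZ.map (evE D hx₀).symm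
  refine ⟨Free.ChooseBasisIndex ℤ (LZ hol V x₀), inferInstance, fun i => (bD i).1,
    fun i => (bD i).2, ?_⟩
  intro x hx v hv
  have hd := LZ_disc (V := V) D hx
  have : IsZLattice ℝ (LZ hol V x) := ⟨LZ_lattice D hx₀ hx h⟩
  let b' := (bD.map (evE D hx)).ofZLatticeBasis ℝ (LZ hol V x)
  refine ⟨fun i => b'.repr ⟨v, hv⟩ i, ?_⟩
  have h1 := b'.sum_repr ⟨v, hv⟩
  have h2 := congrArg (Subtype.val) h1
  rw [Submodule.coe_sum] at h2
  refine (h2.symm : v = _).trans ?_
  refine Finset.sum_congr rfl fun i _ => ?_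
  rw [Submodule.coe_smul, Basis.ofZLatticeBasis_apply, Basis.map_apply, evE_apply]
  rfl

/-- a compact subset of the leaves through `K` which meets all orbits of the translations -/
theorem exists_compact (D : Dom hol Ω) (hV : LInv hol V) {x₀ : E} (hx₀ : x₀ ∈ Ω)
    (h : Submodule.span ℝ (LZ hol V x₀ : Set V) = ⊤) {K : Set E} (hK : IsCompact K)
    (hKΩ : K ⊆ Ω) : ∃ K' : Set E, IsCompact K' ∧ K' ⊆ Ω ∧ K ⊆ K' ∧
      ∀ x ∈ K, ∀ v ∈ V, ∃ τ : Γ, Tr hol V τ ∧ hol τ (x + v) ∈ K' := by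
  obtain ⟨ι, hι, g, hg, hspan⟩ := exists_param D hx₀ h
  let S : Set (ι → ℝ) := Set.pi univ fun _ => Icc (0 : ℝ) 1
  have hS : IsCompact S := isCompact_univ_pi fun _ => isCompact_Icc
  have hgc : ∀ i, Continuous (g i) := by
    intro i
    obtain ⟨τ, -, h2⟩ := hg i
    have : g i = fun y => disp hol τ y := funext h2
    rw [this]
    exact disp_cont τ
  let f : E × (ι → ℝ) → E := fun p => p.1 + ∑ i, p.2 i • g i p.1
  have hf : Continuous f := by
    refine continuous_fst.add (continuous_finsetSum _ fun i _ => ?_)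
    exact ((continuous_apply i).comp continuous_snd).smul ((hgc i).comp continuous_fst)
  refine ⟨f '' (K ×ˢ S), (hK.prod hS).image hf, ?_, ?_, ?_⟩
  · rintro _ ⟨⟨x, s⟩, ⟨hx, -⟩, rfl⟩
    refine vcomplete D hV hx₀ h (hKΩ hx) ?_
    exact V.sum_mem fun i _ => V.smul_mem _ (DG_mem (hg i) x)
  · intro x hx
    refine ⟨(x, 0), ⟨hx, fun i _ => ⟨le_rfl, zero_le_one⟩⟩, ?_⟩
    show x + ∑ i, (0 : ℝ) • g i x = x
    simp
  · intro x hx v hv
    obtain ⟨s, hs⟩ := hspan x (hKΩ hx) v hv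
    have hmem : (-∑ i, ⌊s i⌋ • g i) ∈ DG hol V :=
      (DG hol V).neg_mem ((DG hol V).sum_mem fun i _ => (DG hol V).zsmul_mem (hg i) _)
    obtain ⟨τ, hτ, hτ'⟩ := hmem
    refine ⟨τ, hτ, (x, fun i => Int.fract (s i)), ⟨hx, fun i _ => ⟨Int.fract_nonneg _,
      (Int.fract_lt_one _).le⟩⟩, ?_⟩
    have h1 : disp hol τ x = -∑ i, (⌊s i⌋ : ℝ) • g i x := by
      rw [← hτ' x, Pi.neg_apply, Finset.sum_apply]
      congr 1
      refine Finset.sum_congr rfl fun i _ => ?_
      rw [Pi.smul_apply, Int.cast_smul_eq_zsmul]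
    rw [hol_eq τ (x + v), hτ.disp_add x hv, h1, hs]
    show x + ∑ i, Int.fract (s i) • g i x = _
    have h2 : ∀ i, Int.fract (s i) • g i x = s i • g i x - (⌊s i⌋ : ℝ) • g i x := by
      intro i
      rw [← sub_smul]; rfl
    simp only [h2]
    rw [Finset.sum_sub_distrib]
    abel

section quot
variable {Q : Type} [NormedAddCommGroup Q] [NormedSpace ℝ Q] {π : E →ₗ[ℝ] Q}
  {hol₁ : Γ →* (Q ≃ᵃ[ℝ] Q)}

/-- compact subsets of the quotient are covered by compact subsets -/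
theorem lift_compact [FiniteDimensional ℝ Q] (hΩ : IsOpen Ω) (hs : Function.Surjective π)
    {K₁ : Set Q} (hK₁ : IsCompact K₁) (hsub : K₁ ⊆ π '' Ω) :
    ∃ K ⊆ Ω, IsCompact K ∧ K₁ ⊆ π '' K := by
  have hop : IsOpenMap π := by
    have := (LinearMap.toContinuousLinearMap π).isOpenMap hs
    exact this
  have hsub' : ∀ q ∈ K₁, ∃ x : E, x ∈ Ω ∧ π x = q := fun q hq => hsub hq
  choose! x hx hxq using hsub'
  have hball : ∀ q ∈ K₁, ∃ r > 0, Metric.closedBall (x q) r ⊆ Ω := fun q hq =>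
    Metric.nhds_basis_closedBall.mem_iff.1 (hΩ.mem_nhds (hx q hq))
  choose! r hr hr' using hball
  obtain ⟨t, ht, hcov⟩ := hK₁.elim_nhds_subcover (fun q => π '' Metric.ball (x q) (r q))
    (fun q hq => (hop _ Metric.isOpen_ball).mem_nhds
      ⟨x q, Metric.mem_ball_self (hr q hq), hxq q hq⟩)
  refine ⟨⋃ q ∈ t, Metric.closedBall (x q) (r q), ?_, ?_, ?_⟩
  · exact iUnion₂_subset fun q hq => hr' q (ht q hq)
  · exact t.isCompact_biUnion fun q _ => isCompact_closedBall _ _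
  · refine hcov.trans ?_
    refine iUnion₂_subset fun q hq => ?_
    refine image_mono ?_
    exact Metric.ball_subset_closedBall.trans (subset_biUnion_of_mem (u := fun q =>
      Metric.closedBall (x q) (r q)) hq)

theorem Tr.quot (q : IsQuot hol V π hol₁) {τ : Γ} (hτ : Tr hol V τ) : hol₁ τ = 1 := by
  apply AffineEquiv.ext
  intro y
  obtain ⟨x, rfl⟩ := q.surj y
  rw [q.equi]
  show π (hol τ x) = π x
  rw [q.eq_iff]
  exact hτ.1 x

/-- the elements which move a point of `K` to the leaf of a point of `K` -/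
theorem near_mod (D : Dom hol Ω) (hV : LInv hol V) {x₀ : E} (hx₀ : x₀ ∈ Ω)
    (h : Submodule.span ℝ (LZ hol V x₀ : Set V) = ⊤) {K : Set E} (hK : IsCompact K)
    (hKΩ : K ⊆ Ω) : ∃ F : Set Γ, F.Finite ∧ ∀ γ : Γ, (∃ x ∈ K, ∃ v ∈ V, hol γ x + v ∈ K) →
      ∃ τ : Γ, Tr hol V τ ∧ τ * γ ∈ F := by
  obtain ⟨K', hK', hK'Ω, hKK', hcov⟩ := exists_compact D hV hx₀ h hK hKΩ
  refine ⟨_, D.pd K' hK'Ω hK', ?_⟩
  rintro γ ⟨x, hx, v, hv, hy⟩
  obtain ⟨τ, hτ, hmem⟩ := hcov _ hy (-v) (V.neg_mem hv)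
  refine ⟨τ, hτ, x, hKK' hx, ?_⟩
  rw [hol_mul]
  rwa [add_neg_cancel_right] at hmem

/-- the action on the quotient is properly discontinuous and cocompact -/
theorem Dom.quot [FiniteDimensional ℝ Q] (D : Dom hol Ω) (hV : LInv hol V) {x₀ : E}
    (hx₀ : x₀ ∈ Ω) (h : Submodule.span ℝ (LZ hol V x₀ : Set V) = ⊤)
    (q : IsQuot hol V π hol₁) : Dom hol₁.range.subtype (π '' Ω) where
  isOpen := by
    have := (LinearMap.toContinuousLinearMap π).isOpenMap q.surj
    exact this _ D.isOpen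
  inv := by
    rintro ⟨_, γ, rfl⟩ _ ⟨x, hx, rfl⟩
    exact ⟨hol γ x, D.inv γ x hx, (q.equi γ x).symm⟩
  pd := by
    intro K₁ hK₁Ω hK₁
    obtain ⟨K, hKΩ, hK, hKK⟩ := lift_compact D.isOpen q.surj hK₁ hK₁Ω
    obtain ⟨F, hF, hFm⟩ := near_mod D hV hx₀ h hK hKΩ
    refine (hF.image fun γ => hol₁.rangeRestrict γ).subset ?_
    rintro ⟨_, γ, rfl⟩ ⟨y, hy, hy'⟩
    obtain ⟨x, hx, rfl⟩ := hKK hy
    have hy2 : π (hol γ x) ∈ K₁ := by
      rw [← q.equi]
      exact hy'
    obtain ⟨z, hz, hzx⟩ := hKK hy2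
    have hv : z - hol γ x ∈ V := (q.eq_iff _ _).1 hzx
    obtain ⟨τ, hτ, hmem⟩ := hFm γ ⟨x, hx, z - hol γ x, hv, by
      rw [add_sub_cancel]; exact hz⟩
    refine ⟨τ * γ, hmem, ?_⟩
    apply Subtype.ext
    show hol₁ (τ * γ) = hol₁ γ
    rw [map_mul, hτ.quot q, one_mul]
  cc := by
    obtain ⟨K, hKΩ, hK, hcc⟩ := D.cc
    refine ⟨π '' K, image_mono hKΩ, hK.image π.continuous_of_finiteDimensional, ?_⟩
    rintro _ ⟨x, hx, rfl⟩
    obtain ⟨γ, hγ⟩ := hcc x hx
    exact ⟨hol₁.rangeRestrict γ, hol γ x, hγ, (q.equi γ x).symm⟩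

/-- `Ω` is everything if this holds for the quotient -/
theorem full_of_quot (D : Dom hol Ω) (hV : LInv hol V) {x₀ : E}
    (hx₀ : x₀ ∈ Ω) (h : Submodule.span ℝ (LZ hol V x₀ : Set V) = ⊤)
    (q : IsQuot hol V π hol₁) (hfull : π '' Ω = univ) : Ω = univ := by
  rw [eq_univ_iff_forall]
  intro x
  obtain ⟨y, hy, hyx⟩ : π x ∈ π '' Ω := by rw [hfull]; trivial
  have h1 : x - y ∈ V := (q.eq_iff _ _).1 hyx.symm
  have h2 := vcomplete D hV hx₀ h hy h1
  rwa [add_sub_cancel] at h2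

end quot

end Pool.Agent.U352.AF
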