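import Pool.Agent.U352.AF.Vs

/-!
Towers of translations.
-/

set_option autoImplicit false

open Set Filter Topology MeasureTheory Pool.Agent.W689.Mk Module

namespace Pool.Agent.U352.AF

/-- the holonomy acts on `E / V` as a translation by a vector of `W / V` -/
def TMod {Γ E : Type} [Group Γ] [NormedAddCommGroup E] [NormedSpace ℝ E]
    (hol : Γ →* (E ≃ᵃ[ℝ] E)) (V W : Submodule ℝ E) (γ : Γ) : Prop :=
  (∀ v, (hol γ).linear v - v ∈ V) ∧ hol γ 0 ∈ W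

/-- tower of translations -/
structure Tower {Γ E : Type} [Group Γ] [NormedAddCommGroup E] [NormedSpace ℝ E]
    (hol : Γ →* (E ≃ᵃ[ℝ] E)) (V : ℕ → Submodule ℝ E) (m : ℕ) : Prop where
  bot : V 0 = ⊥
  mono : ∀ i < m, V i ≤ V (i + 1)
  inv : ∀ i ≤ m, LInv hol (V i)
  span : ∀ i < m, V (i + 1) ≤
    V i ⊔ Submodule.span ℝ {v | ∃ γ : Γ, TMod hol (V i) (V (i + 1)) γ ∧ hol γ 0 = v}

theorem Tower.le {Γ E : Type} [Group Γ] [NormedAddCommGroup E] [NormedSpace ℝ E]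
    {hol : Γ →* (E ≃ᵃ[ℝ] E)} {V : ℕ → Submodule ℝ E} {m : ℕ} (T : Tower hol V m) {i j : ℕ}
    (hij : i ≤ j) (hj : j ≤ m) : V i ≤ V j := by
  induction j, hij using Nat.le_induction with
  | base => exact le_rfl
  | succ k hk ih => exact (ih (by omega)).trans (T.mono k (by omega))

/-- the properties of the quotient `E / V` -/
structure QProp {Γ E : Type} [Group Γ] [NormedAddCommGroup E] [NormedSpace ℝ E]
    (hol : Γ →* (E ≃ᵃ[ℝ] E)) (Ω : Set E) (V : Submodule ℝ E) {Q : Type} [NormedAddCommGroup Q]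
    [NormedSpace ℝ Q] (π : E →ₗ[ℝ] Q) (hol₁ : Γ →* (Q ≃ᵃ[ℝ] Q)) : Prop where
  isQuot : IsQuot hol V π hol₁
  dom : Dom hol₁.range.subtype (π '' Ω)
  det : ∀ γ, |LinearMap.det ((hol₁ γ).linear : Q →ₗ[ℝ] Q)| =
    |LinearMap.det ((hol γ).linear : E →ₗ[ℝ] E)|
  full : π '' Ω = univ → Ω = univ
  vs : VS hol₁.range.subtype → VS hol
  sat : ∀ x ∈ Ω, ∀ v ∈ V, x + v ∈ Ω

theorem span_of_le {E : Type} [NormedAddCommGroup E] [NormedSpace ℝ E] (V : Submodule ℝ E)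
    (S : Set E) (hS : S ⊆ V) (h : V ≤ Submodule.span ℝ S) :
    Submodule.span ℝ {v : V | (v : E) ∈ S} = ⊤ := by
  rw [eq_top_iff]
  rintro v -
  have h1 : (v : E) ∈ Submodule.span ℝ S := h v.2
  have h2 : S = V.subtype '' {v : V | (v : E) ∈ S} := by
    ext x
    constructor
    · intro hx
      exact ⟨⟨x, hS hx⟩, hx, rfl⟩
    · rintro ⟨y, hy, rfl⟩
      exact hy
  rw [h2, Submodule.span_image] at h1
  obtain ⟨w, hw, hwv⟩ := h1
  have h3 : w = v := Subtype.ext hwv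
  rw [← h3]
  exact hw

theorem one_step {Γ E : Type} [Group Γ] [NormedAddCommGroup E] [NormedSpace ℝ E]
    [FiniteDimensional ℝ E] {hol : Γ →* (E ≃ᵃ[ℝ] E)} {Ω : Set E} (D : Dom hol Ω)
    (hne : Ω.Nonempty) {V : Submodule ℝ E} (hV : LInv hol V)
    (h : V ≤ Submodule.span ℝ {v | ∃ γ : Γ, TMod hol ⊥ V γ ∧ hol γ 0 = v}) :
    ∃ (Q : Type) (_ : NormedAddCommGroup Q) (_ : NormedSpace ℝ Q) (_ : FiniteDimensional ℝ Q)
      (π : E →ₗ[ℝ] Q) (hol₁ : Γ →* (Q ≃ᵃ[ℝ] Q)), QProp hol Ω V π hol₁ := by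
  obtain ⟨x₀, hx₀⟩ := hne
  obtain ⟨Q, i1, i2, i3, π, hol₁, q⟩ := exists_quot hV
  have hS : {v | ∃ γ : Γ, TMod hol ⊥ V γ ∧ hol γ 0 = v} ⊆ (V : Set E) := by
    rintro v ⟨γ, h1, rfl⟩
    exact h1.2
  have hspan := span_of_le V _ hS h
  have hset : {v : V | (v : E) ∈ {v | ∃ γ : Γ, TMod hol ⊥ V γ ∧ hol γ 0 = v}} =
      {v : V | ∃ γ : Γ, (∀ w, (hol γ).linear w = w) ∧ hol γ 0 = v} := by
    ext v
    constructor
    · rintro ⟨γ, h1, h2⟩
      refine ⟨γ, fun w => ?_, h2⟩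
      have := h1.1 w
      rwa [Submodule.mem_bot, sub_eq_zero] at this
    · rintro ⟨γ, h1, h2⟩
      refine ⟨γ, ⟨fun w => ?_, ?_⟩, h2⟩
      · rw [h1, sub_self]; exact Submodule.zero_mem _
      · rw [h2]; exact v.2
  rw [hset] at hspan
  have hLZ : Submodule.span ℝ (LZ hol V x₀ : Set V) = ⊤ := by
    rw [eq_top_iff, ← hspan]
    refine Submodule.span_mono ?_
    rintro v ⟨σ, h1, h2⟩
    have hd : ∀ x, disp hol σ x = v := by
      intro x
      have h5 : hol σ (0 + x) = hol σ 0 + lin hol σ x := hol_add σ 0 x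
      rw [zero_add] at h5
      have h6 : lin hol σ x = x := h1 x
      rw [disp, h5, h6, h2, add_sub_cancel_right]
    show v ∈ LZ hol V x₀
    rw [mem_LZ]
    refine ⟨fun x => disp hol σ x, ⟨σ, ⟨fun x => ?_, fun w _ => h1 w⟩, fun _ => rfl⟩, hd x₀⟩
    have := hd x
    rw [disp] at this
    rw [this]
    exact v.2
  refine ⟨Q, i1, i2, i3, π, hol₁, ⟨q, D.quot hV hx₀ hLZ q, ?_, full_of_quot D hV hx₀ hLZ q,
    vs_lift D hV hx₀ hLZ q, fun x hx v hv => vcomplete D hV hx₀ hLZ hx hv⟩⟩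
  intro γ
  rw [det_quot hV q γ, abs_mul, det_pure D hV hx₀ hspan γ, one_mul]

theorem tower_quot (m : ℕ) : ∀ {Γ E : Type} [Group Γ] [NormedAddCommGroup E] [NormedSpace ℝ E]
    [FiniteDimensional ℝ E] {hol : Γ →* (E ≃ᵃ[ℝ] E)} {Ω : Set E} (_ : Dom hol Ω)
    (_ : Ω.Nonempty) {V : ℕ → Submodule ℝ E} (_ : Tower hol V m),
    ∃ (Q : Type) (_ : NormedAddCommGroup Q) (_ : NormedSpace ℝ Q) (_ : FiniteDimensional ℝ Q)
      (π : E →ₗ[ℝ] Q) (hol₁ : Γ →* (Q ≃ᵃ[ℝ] Q)), QProp hol Ω (V m) π hol₁ := by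
  induction m with
  | zero =>
    intro Γ E _ _ _ _ hol Ω D hne V T
    refine one_step D hne (T.inv 0 le_rfl) ?_
    rw [T.bot]
    exact bot_le
  | succ m ih =>
    intro Γ E _ _ _ _ hol Ω D hne V T
    have h1 : V 1 ≤ Submodule.span ℝ {v | ∃ γ : Γ, TMod hol ⊥ (V 1) γ ∧ hol γ 0 = v} := by
      have := T.span 0 (by omega)
      rwa [T.bot, bot_sup_eq] at this
    obtain ⟨Q₁, i1, i2, i3, π₁, hol₁, q₁⟩ := one_step D hne (T.inv 1 (by omega)) h1
    have hker : ∀ i ≤ m + 1, 1 ≤ i → ∀ x, π₁ x ∈ (V i).map π₁ → x ∈ V i := by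
      rintro i hi hi1 x ⟨y, hy, hyx⟩
      have h2 : x - y ∈ V 1 := (q₁.isQuot.eq_iff _ _).1 hyx.symm
      have h3 := T.le hi1 hi h2
      have := (V i).add_mem h3 hy
      rwa [sub_add_cancel] at this
    let V' : ℕ → Submodule ℝ Q₁ := fun i => (V (i + 1)).map π₁
    have T' : Tower hol₁.range.subtype V' m := by
      refine ⟨?_, ?_, ?_, ?_⟩
      · show (V (0 + 1)).map π₁ = ⊥
        rw [eq_bot_iff]
        rintro _ ⟨x, hx, rfl⟩
        rw [Submodule.mem_bot, q₁.isQuot.ker]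
        exact hx
      · intro i hi
        exact Submodule.map_mono (T.mono (i + 1) (by omega))
      · rintro i hi ⟨_, γ, rfl⟩ _ ⟨x, hx, rfl⟩
        exact ⟨_, T.inv (i + 1) (by omega) γ x hx, (q₁.isQuot.linear γ x).symm⟩
      · rintro i hi _ ⟨x, hx, rfl⟩
        have h2 := T.span (i + 1) (by omega) hx
        have h3 : π₁ x ∈ (V (i + 1) ⊔ Submodule.span ℝ {v | ∃ γ : Γ,
            TMod hol (V (i + 1)) (V (i + 1 + 1)) γ ∧ hol γ 0 = v}).map π₁ := ⟨x, h2, rfl⟩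
        rw [Submodule.map_sup, Submodule.map_span] at h3
        revert h3
        apply SetLike.le_def.1
        refine sup_le_sup_left (Submodule.span_mono ?_) _
        rintro _ ⟨_, ⟨γ, hγ, rfl⟩, rfl⟩
        refine ⟨hol₁.rangeRestrict γ, ⟨?_, ?_⟩, ?_⟩
        · intro y
          obtain ⟨z, rfl⟩ := q₁.isQuot.surj y
          refine ⟨_, hγ.1 z, ?_⟩
          rw [map_sub]
          congr 1
          exact (q₁.isQuot.linear γ z).symm
        · refine ⟨_, hγ.2, ?_⟩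
          rw [← q₁.isQuot.equi, map_zero π₁]
          rfl
        · rw [← q₁.isQuot.equi, map_zero π₁]
          rfl
    obtain ⟨Q, i4, i5, i6, π₂, hol₂, q₂⟩ := ih q₁.dom (hne.image π₁) T'
    refine ⟨Q, i4, i5, i6, π₂.comp π₁, hol₂.comp hol₁.rangeRestrict, ?_⟩
    have hrange : (hol₂.comp hol₁.rangeRestrict).range = hol₂.range := by
      rw [MonoidHom.range_comp]
      rw [MonoidHom.range_eq_top.2 hol₁.rangeRestrict_surjective]
      exact (MonoidHom.range_eq_map hol₂).symm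
    have himg : (π₂.comp π₁) '' Ω = π₂ '' (π₁ '' Ω) := by
      rw [image_image]; rfl
    refine ⟨⟨q₂.isQuot.surj.comp q₁.isQuot.surj, ?_, ?_⟩, ?_, ?_, ?_, ?_, ?_⟩
    · intro x
      show π₂ (π₁ x) = 0 ↔ _
      rw [q₂.isQuot.ker]
      constructor
      · exact hker (m + 1) le_rfl (by omega) x
      · intro hx
        exact ⟨x, hx, rfl⟩
    · intro γ x
      show hol₂ (hol₁.rangeRestrict γ) (π₂ (π₁ x)) = π₂ (π₁ (hol γ x))
      rw [q₂.isQuot.equi, ← q₁.isQuot.equi]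
      rfl
    · rw [hrange, himg]
      exact q₂.dom
    · intro γ
      show |LinearMap.det ((hol₂ (hol₁.rangeRestrict γ)).linear : Q →ₗ[ℝ] Q)| = _
      rw [q₂.det, ← q₁.det]
      rfl
    · intro h
      rw [himg] at h
      exact q₁.full (q₂.full h)
    · intro h
      rw [hrange] at h
      exact q₁.vs (q₂.vs h)
    · intro x hx v hv
      have h2 : π₁ v ∈ V' m := ⟨v, hv, rfl⟩
      obtain ⟨y, hy, hyx⟩ := q₂.sat (π₁ x) ⟨x, hx, rfl⟩ _ h2
      rw [← map_add] at hyx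
      have h3 : x + v - y ∈ V 1 := (q₁.isQuot.eq_iff _ _).1 hyx.symm
      have h4 := q₁.sat y hy _ h3
      rwa [add_sub_cancel] at h4

end Pool.Agent.U352.AF
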