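import Pool.Agent.U352.AF.Quo

/-!
Virtual solvability and unimodularity for the quotient by the translated leaves.
-/

set_option autoImplicit false

open Set Filter Topology MeasureTheory Pool.Agent.W689.Mk Module
open scoped commutatorElement

namespace Pool.Agent.U352.AF

variable {Γ E : Type} [Group Γ] [NormedAddCommGroup E] [NormedSpace ℝ E]
  {hol : Γ →* (E ≃ᵃ[ℝ] E)} {Ω : Set E} {V : Submodule ℝ E}

/-- the holonomy group is virtually solvable -/
def VS (hol : Γ →* (E ≃ᵃ[ℝ] E)) : Prop :=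
  ∃ H' : Subgroup Γ, H'.FiniteIndex ∧ Group.IsSolvable (H'.map hol)

/-- the group of the translations of the leaves -/
def TG (hol : Γ →* (E ≃ᵃ[ℝ] E)) (V : Submodule ℝ E) : Subgroup Γ where
  carrier := {γ | Tr hol V γ}
  mul_mem' := Tr.mul
  one_mem' := Tr.one
  inv_mem' := Tr.inv

theorem TG_normal (hV : LInv hol V) : (TG hol V).Normal := by
  refine ⟨fun τ hτ δ => ?_⟩
  have := Tr.conj (hol := hol) (V := V) hτ hV δ⁻¹
  rwa [inv_inv] at this

theorem Tr.comm {τ σ : Γ} (h : Tr hol V τ) (h' : Tr hol V σ) : hol ⁅τ, σ⁆ = 1 := by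
  have h1 : hol (τ * σ) = hol (σ * τ) := by
    apply AffineEquiv.ext
    intro x
    rw [hol_eq, hol_eq (σ * τ), h.disp_mul h', h'.disp_mul h, add_comm (disp hol τ x)]
  rw [commutatorElement_def, mul_assoc, map_mul, h1, ← map_mul]
  have : σ * τ * (τ⁻¹ * σ⁻¹) = 1 := by group
  rw [this, map_one]

theorem solvable_map {A : Type} [Group A] (f : Γ →* A) (H' : Subgroup Γ) (n : ℕ)
    (h : ∀ γ ∈ derivedSeries H' n, f (γ : Γ) = 1) : Group.IsSolvable (H'.map f) := by
  refine ⟨n, ?_⟩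
  have h1 : Function.Surjective (f.subgroupMap H') := f.subgroupMap_surjective H'
  rw [← map_derivedSeries_eq h1 n]
  rw [eq_bot_iff]
  rintro _ ⟨γ, hγ, rfl⟩
  rw [Subgroup.mem_bot]
  apply Subtype.ext
  exact h γ hγ

variable [FiniteDimensional ℝ E]

section quot
variable {Q : Type} [NormedAddCommGroup Q] [NormedSpace ℝ Q] {π : E →ₗ[ℝ] Q}
  {hol₁ : Γ →* (Q ≃ᵃ[ℝ] Q)}

theorem vs_lift (D : Dom hol Ω) (hV : LInv hol V) {x₀ : E} (hx₀ : x₀ ∈ Ω)
    (h : Submodule.span ℝ (LZ hol V x₀ : Set V) = ⊤) (q : IsQuot hol V π hol₁)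
    (hs : VS hol₁.range.subtype) : VS hol := by
  obtain ⟨H₁, hH₁, hsol⟩ := hs
  have hsol' : Group.IsSolvable H₁ := by
    have hinj : Function.Injective (hol₁.range.subtype.subgroupMap H₁) := by
      intro a b hab
      have h1 := congrArg (fun z : H₁.map hol₁.range.subtype => (z : Q ≃ᵃ[ℝ] Q)) hab
      exact Subtype.ext (Subtype.ext h1)
    exact Group.isSolvable_of_isSolvable_injective hinj
  have hTn := TG_normal hV
  let T := TG hol V
  let N₁ := hol₁.ker
  let N : Subgroup (Γ ⧸ T) := N₁.map (QuotientGroup.mk' T)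
  have hNn : N.Normal := (inferInstance : N₁.Normal).map _ (QuotientGroup.mk'_surjective T)
  -- the group `N` is finite
  obtain ⟨F, hF, hFm⟩ := near_mod D hV hx₀ h (isCompact_singleton (x := x₀))
    (singleton_subset_iff.2 hx₀)
  have hNfin : (N : Set (Γ ⧸ T)).Finite := by
    refine (hF.image (QuotientGroup.mk' T)).subset ?_
    rintro _ ⟨γ, hγ, rfl⟩
    have h1 : hol₁ γ = 1 := hγ
    have h2 : x₀ - hol γ x₀ ∈ V := by
      rw [← q.eq_iff, ← q.equi, h1]; rfl
    obtain ⟨τ, hτ, hmem⟩ := hFm γ ⟨x₀, rfl, _, h2, by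
      rw [add_sub_cancel]; rfl⟩
    refine ⟨τ * γ, hmem, ?_⟩
    rw [map_mul]
    have h3 : QuotientGroup.mk' T τ = 1 := (QuotientGroup.eq_one_iff τ).2 hτ
    rw [h3, one_mul]
  have : Finite N := hNfin
  have : Finite (MulAut N) := Finite.of_injective (fun f : MulAut N => f.toEquiv)
    (fun a b hab => MulEquiv.ext fun x => congrArg (fun e : N ≃ N => e x) hab)
  let C : Subgroup (Γ ⧸ T) := (MulAut.conjNormal : (Γ ⧸ T) →* MulAut N).ker
  have hC : C.FiniteIndex := inferInstance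
  let H' : Subgroup Γ := C.comap (QuotientGroup.mk' T) ⊓ H₁.comap hol₁.rangeRestrict
  have hH' : H'.FiniteIndex := by
    have h1 : (C.comap (QuotientGroup.mk' T)).FiniteIndex := ⟨by
      rw [Subgroup.index_comap_of_surjective _ (QuotientGroup.mk'_surjective T)]
      exact hC.index_ne_zero⟩
    have h2 : (H₁.comap hol₁.rangeRestrict).FiniteIndex := ⟨by
      rw [Subgroup.index_comap_of_surjective _ hol₁.rangeRestrict_surjective]
      exact hH₁.index_ne_zero⟩
    exact inferInstance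
  refine ⟨H', hH', ?_⟩
  obtain ⟨n, hn⟩ := hsol'
  have hD0 : ∀ γ ∈ derivedSeries H' n, hol₁ (γ : Γ) = 1 := by
    intro γ hγ
    let f : H' →* H₁ :=
      { toFun := fun γ => ⟨hol₁.rangeRestrict γ, γ.2.2⟩
        map_one' := by
          apply Subtype.ext
          exact map_one _
        map_mul' := fun a b => by
          apply Subtype.ext
          exact map_mul hol₁.rangeRestrict _ _ }
    have h1 : f γ ∈ (derivedSeries H' n).map f := ⟨γ, hγ, rfl⟩
    have h2 := map_derivedSeries_le_derivedSeries f n h1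
    rw [hn, Subgroup.mem_bot] at h2
    have h3 := congrArg (fun a : H₁ => ((a : hol₁.range) : Q ≃ᵃ[ℝ] Q)) h2
    exact h3
  have hD1 : derivedSeries H' (n + 1) ≤ (TG hol V).comap H'.subtype := by
    rw [derivedSeries_succ, Subgroup.commutator_le]
    intro a ha b hb
    have h1 : hol₁ (a : Γ) = 1 := hD0 a ha
    have h2 : hol₁ (b : Γ) = 1 := hD0 b hb
    show ((⁅a, b⁆ : H') : Γ) ∈ T
    have h3 : QuotientGroup.mk' T (a : Γ) ∈ C := a.2.1
    have h4 : (MulAut.conjNormal : (Γ ⧸ T) →* MulAut N) (QuotientGroup.mk' T (a : Γ)) = 1 := h3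
    have h5 : QuotientGroup.mk' T (b : Γ) ∈ N := ⟨b, h2, rfl⟩
    have h6 := MulAut.conjNormal_apply (QuotientGroup.mk' T (a : Γ)) (⟨_, h5⟩ : N)
    rw [h4] at h6
    have h7 : QuotientGroup.mk' T (b : Γ) =
        QuotientGroup.mk' T (a : Γ) * QuotientGroup.mk' T (b : Γ) *
          (QuotientGroup.mk' T (a : Γ))⁻¹ := h6
    rw [← QuotientGroup.eq_one_iff]
    show QuotientGroup.mk' T ((a : Γ) * b * (a : Γ)⁻¹ * (b : Γ)⁻¹) = 1
    rw [map_mul, map_mul, map_mul, map_inv, map_inv, ← h7, mul_inv_cancel]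
  have hD2 : derivedSeries H' (n + 2) ≤ (hol.comp H'.subtype).ker := by
    rw [derivedSeries_succ, Subgroup.commutator_le]
    intro a ha b hb
    exact Tr.comm (hD1 ha) (hD1 hb)
  exact solvable_map hol H' (n + 2) fun γ hγ => hD2 hγ

/-- the determinants on the quotient, when the leaves are translated by translations of `E` -/
theorem det_quot (hV : LInv hol V) (q : IsQuot hol V π hol₁) (γ : Γ) :
    LinearMap.det ((hol γ).linear : E →ₗ[ℝ] E) =
      LinearMap.det (Bm hV γ) * LinearMap.det ((hol₁ γ).linear : Q →ₗ[ℝ] Q) := by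
  have h1 := LinearMap.det_eq_det_mul_det V ((hol γ).linear : E →ₗ[ℝ] E) (hV γ)
  have hker : V = LinearMap.ker π := by
    ext x
    rw [LinearMap.mem_ker, q.ker]
  let e : (E ⧸ V) ≃ₗ[ℝ] Q :=
    (Submodule.quotEquivOfEq V (LinearMap.ker π) hker).trans (π.quotKerEquivOfSurjective q.surj)
  have he : ∀ x : E, e (Submodule.Quotient.mk x) = π x := fun x => rfl
  have h2 : ((hol₁ γ).linear : Q →ₗ[ℝ] Q) =
      (e : (E ⧸ V) →ₗ[ℝ] Q) ∘ₗ (V.mapQ V ((hol γ).linear : E →ₗ[ℝ] E) (hV γ)) ∘ₗ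
        (e.symm : Q →ₗ[ℝ] (E ⧸ V)) := by
    apply LinearMap.ext
    intro y
    obtain ⟨x, rfl⟩ := q.surj y
    show (hol₁ γ).linear (π x) = e (V.mapQ V ((hol γ).linear : E →ₗ[ℝ] E) (hV γ) (e.symm (π x)))
    rw [← he x, e.symm_apply_apply, Submodule.mapQ_apply, he, he]
    exact q.linear γ x
  rw [h1, h2, LinearMap.det_conj]
  rfl

theorem det_pure (D : Dom hol Ω) (hV : LInv hol V) {x₀ : E} (hx₀ : x₀ ∈ Ω)
    (h : Submodule.span ℝ {v : V | ∃ γ : Γ, (∀ w, (hol γ).linear w = w) ∧ hol γ 0 = v} = ⊤)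
    (γ : Γ) : |LinearMap.det (Bm hV γ)| = 1 := by
  classical
  -- the lattice of the translations
  let L : Submodule ℤ V :=
    { carrier := {v : V | ∃ γ : Γ, (∀ w, (hol γ).linear w = w) ∧ hol γ 0 = v}
      add_mem' := by
        rintro a b ⟨σ, h1, h2⟩ ⟨τ, h3, h4⟩
        refine ⟨σ * τ, fun w => ?_, ?_⟩
        · show lin hol (σ * τ) w = w
          rw [lin_mul]
          show (hol σ).linear ((hol τ).linear w) = w
          rw [h3, h1]
        · rw [hol_mul, h4]
          have h5 : hol σ (0 + (b : E)) = hol σ 0 + lin hol σ (b : E) :=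
            hol_add (hol := hol) σ 0 (b : E)
          rw [zero_add] at h5
          rw [h5, h2]
          show (a : E) + (hol σ).linear (b : E) = _
          rw [h1]; rfl
      zero_mem' := ⟨1, fun w => by rw [map_one]; rfl, by rw [map_one]; rfl⟩
      smul_mem' := by
        have hadd : ∀ a b : V, (∃ γ : Γ, (∀ w, (hol γ).linear w = w) ∧ hol γ 0 = a) →
            (∃ γ : Γ, (∀ w, (hol γ).linear w = w) ∧ hol γ 0 = b) →
            ∃ γ : Γ, (∀ w, (hol γ).linear w = w) ∧ hol γ 0 = ((a + b : V) : E) := by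
          rintro a b ⟨σ, h1, h2⟩ ⟨τ, h3, h4⟩
          refine ⟨σ * τ, fun w => ?_, ?_⟩
          · show lin hol (σ * τ) w = w
            rw [lin_mul]
            show (hol σ).linear ((hol τ).linear w) = w
            rw [h3, h1]
          · rw [hol_mul, h4]
            have h5 : hol σ (0 + (b : E)) = hol σ 0 + lin hol σ (b : E) :=
            hol_add (hol := hol) σ 0 (b : E)
            rw [zero_add] at h5
            rw [h5, h2]
            show (a : E) + (hol σ).linear (b : E) = _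
            rw [h1]; rfl
        have hneg : ∀ a : V, (∃ γ : Γ, (∀ w, (hol γ).linear w = w) ∧ hol γ 0 = a) →
            ∃ γ : Γ, (∀ w, (hol γ).linear w = w) ∧ hol γ 0 = ((-a : V) : E) := by
          rintro a ⟨σ, h1, h2⟩
          have h3 : ∀ w, (hol σ⁻¹).linear w = w := by
            intro w
            have h4 := lin_inv_apply (hol := hol) σ w
            have h5 : lin hol σ w = w := h1 w
            rw [h5] at h4
            exact h4
          refine ⟨σ⁻¹, h3, ?_⟩
          have h6 := hol_inv_apply (hol := hol) σ 0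
          rw [h2] at h6
          have h7 : hol σ⁻¹ (0 + (a : E)) = hol σ⁻¹ 0 + lin hol σ⁻¹ (a : E) :=
            hol_add (hol := hol) σ⁻¹ 0 (a : E)
          rw [zero_add, h6] at h7
          have h8 : lin hol σ⁻¹ (a : E) = a := h3 a
          rw [h8] at h7
          show hol σ⁻¹ 0 = -(a : E)
          exact (neg_eq_of_add_eq_zero_left h7.symm).symm
        have hnat : ∀ (n : ℕ) (a : V), (∃ γ : Γ, (∀ w, (hol γ).linear w = w) ∧ hol γ 0 = a) →
            ∃ γ : Γ, (∀ w, (hol γ).linear w = w) ∧ hol γ 0 = ((n • a : V) : E) := by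
          intro n a ha
          induction n with
          | zero => exact ⟨1, fun w => by rw [map_one]; rfl, by rw [map_one, zero_smul]; rfl⟩
          | succ n ih => rw [succ_nsmul]; exact hadd _ _ ih ha
        rintro c a ha
        obtain ⟨n, rfl | rfl⟩ := c.eq_nat_or_neg
        · rw [natCast_zsmul]; exact hnat n a ha
        · rw [neg_smul, natCast_zsmul]; exact hneg _ (hnat n a ha) }
  have hLT : ∀ v ∈ L, v ∈ LZ hol V x₀ := by
    rintro v ⟨σ, h1, h2⟩
    rw [mem_LZ]
    have hd : ∀ x, disp hol σ x = v := by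
      intro x
      have h5 : hol σ (0 + x) = hol σ 0 + lin hol σ x := hol_add σ 0 x
      rw [zero_add] at h5
      have h6 : lin hol σ x = x := h1 x
      rw [disp, h5, h6, h2, add_sub_cancel_right]
    refine ⟨fun x => disp hol σ x, ⟨σ, ⟨fun x => ?_, fun w _ => h1 w⟩, fun _ => rfl⟩, hd x₀⟩
    have := hd x
    rw [disp] at this
    rw [this]
    exact v.2
  have hdisc : DiscreteTopology L := by
    obtain ⟨r, hr, hgap⟩ := LZ_gap (V := V) D hx₀
    apply discreteTopology_of_isOpen_singleton_zero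
    rw [Metric.isOpen_singleton_iff]
    refine ⟨r, hr, fun y hy => ?_⟩
    apply Subtype.ext
    apply hgap y.1 (hLT _ y.2)
    rw [dist_eq_norm, sub_zero] at hy
    exact hy
  have hlat : IsZLattice ℝ L := ⟨h⟩
  let bZ := Free.chooseBasis ℤ L
  let b := bZ.ofZLatticeBasis ℝ L
  have hmap : ∀ (δ : Γ) (v : V), v ∈ L → Bm hV δ v ∈ L := by
    rintro δ v ⟨σ, h1, h2⟩
    refine ⟨δ * σ * δ⁻¹, fun w => ?_, ?_⟩
    · show lin hol (δ * σ * δ⁻¹) w = w
      rw [lin_mul, lin_mul]
      have h3 : lin hol σ (lin hol δ⁻¹ w) = lin hol δ⁻¹ w := h1 _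
      rw [h3, lin_apply_inv]
    · rw [Bm_apply, ← h2]
      have h3 := disp_conj (hol := hol) σ δ⁻¹ 0
      rw [inv_inv] at h3
      rw [disp, sub_zero] at h3
      rw [h3]
      congr 1
      have h5 : hol σ (0 + hol δ⁻¹ 0) = hol σ 0 + lin hol σ (hol δ⁻¹ 0) := hol_add σ 0 _
      rw [zero_add] at h5
      have h6 : lin hol σ (hol δ⁻¹ 0) = hol δ⁻¹ 0 := h1 _
      rw [disp, h5, h6, add_sub_cancel_right]
  have hint : ∀ δ : Γ, ∃ z : ℤ, LinearMap.det (Bm hV δ) = z := by
    intro δ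
    have hw : ∀ i, Bm hV δ (b i) ∈ L := by
      intro i
      apply hmap
      rw [Basis.ofZLatticeBasis_apply]
      exact (bZ i).2
    refine ⟨(Matrix.of fun i j => bZ.repr ⟨_, hw j⟩ i).det, ?_⟩
    have h3 : b.det (⇑(Bm hV δ) ∘ b) = LinearMap.det (Bm hV δ) * b.det b := b.det_comp _ _
    rw [b.det_self, mul_one] at h3
    rw [← h3, Basis.det_apply, Int.cast_det]
    congr 1
    ext i j
    exact Basis.ofZLatticeBasis_repr_apply ℝ L bZ ⟨_, hw j⟩ i
  obtain ⟨z, hz⟩ := hint γ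
  obtain ⟨z', hz'⟩ := hint γ⁻¹
  have h1 := det_Bm_inv hV γ
  rw [hz, hz'] at h1
  have h2 : z' * z = 1 := by exact_mod_cast h1
  have h3 : z = 1 ∨ z = -1 := Int.isUnit_iff.1 ⟨⟨z, z', by rw [mul_comm]; exact h2, h2⟩, rfl⟩
  rw [hz]
  rcases h3 with h3 | h3 <;> rw [h3] <;> simp

end quot

end Pool.Agent.U352.AF
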