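import Pool.Agent.U352.AF.Tower
import Pool.Agent.N520.RO.Asm
import Pool.Agent.Y449.MS.Wrap
import Pool.Agent.Y449.MS.All

/-!
Completeness above a tower of translations.
-/

set_option autoImplicit false

open Set Filter Topology MeasureTheory Pool.Agent.W689.Mk Module

namespace Pool.Agent.U352.AF

section
variable {Γ E : Type} [Group Γ] [NormedAddCommGroup E] [NormedSpace ℝ E]
  {hol : Γ →* (E ≃ᵃ[ℝ] E)} {Ω : Set E}

/-- uniformly quasi-conformal flag above `V` -/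
def CA (hol : Γ →* (E ≃ᵃ[ℝ] E)) (V : Submodule ℝ E) : Prop :=
  ∃ (S : ℕ → Submodule ℝ E) (l : ℕ), S 0 = V ∧ S l = ⊤ ∧ (∀ i < l, S i ≤ S (i + 1)) ∧
    (∀ i ≤ l, ∀ γ : Γ, ∀ v ∈ S i, (hol γ).linear v ∈ S i) ∧
    ∃ C : ℝ, ∀ i < l, ∀ γ : Γ, ∃ c : ℝ, 0 < c ∧ ∀ v ∈ S (i + 1),
      (∃ w ∈ S i, ‖(hol γ).linear v - w‖ ≤ C * c * ‖v‖) ∧
      ∃ w ∈ S i, ‖(hol γ⁻¹).linear v - w‖ ≤ C * c⁻¹ * ‖v‖

/-- solvable linear holonomy modulo `V` -/
def SA (hol : Γ →* (E ≃ᵃ[ℝ] E)) (V : Submodule ℝ E) : Prop :=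
  ∃ j : ℕ, ∀ γ ∈ derivedSeries Γ j, ∀ v, (hol γ).linear v - v ∈ V

/-- the action on `Ω` -/
@[instance_reducible]
def Dom.action (D : Dom hol Ω) : MulAction Γ Ω where
  smul γ x := ⟨hol γ (x : E), D.inv γ (x : E) x.2⟩
  one_smul x := Subtype.ext (by
    show hol 1 (x : E) = x
    rw [map_one]; rfl)
  mul_smul γ δ x := Subtype.ext (hol_mul (hol := hol) γ δ (x : E))

theorem Dom.data (D : Dom hol Ω)
    (hdet : ∀ γ, |LinearMap.det ((hol γ).linear : E →ₗ[ℝ] E)| = 1) [FiniteDimensional ℝ E] :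
    @AffData Ω Γ E _ _ D.action _ _ Subtype.val hol := by
  let := D.action
  have hs : ∀ (γ : Γ) (x : Ω), ((γ • x : Ω) : E) = hol γ x := fun _ _ => rfl
  refine
    { loc := D.isOpen.isOpenEmbedding_subtypeVal.isLocalHomeomorph
      cont := fun γ => ?_
      equi := hs
      unimod := hdet
      pd := fun K hK => ?_
      cc := ?_ }
  · exact ((hcont γ).comp continuous_subtype_val).subtype_mk _
  · refine (D.pd (Subtype.val '' K) ?_ (hK.image continuous_subtype_val)).subset ?_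
    · rintro _ ⟨x, -, rfl⟩
      exact x.2
    · rintro γ ⟨x, hx, hγ⟩
      exact ⟨x, ⟨x, hx, rfl⟩, ⟨γ • x, hγ, rfl⟩⟩
  · obtain ⟨K, hKΩ, hK, hcc⟩ := D.cc
    refine ⟨Subtype.val ⁻¹' K, ?_, ?_⟩
    · rw [Topology.IsInducing.subtypeVal.isCompact_preimage_iff (by
        rw [Subtype.range_coe]; exact hKΩ)]
      exact hK
    · intro x
      obtain ⟨γ, hγ⟩ := hcc x x.2
      refine ⟨γ⁻¹, γ • x, hγ, ?_⟩
      rw [inv_smul_smul]

theorem vs_of_linear (j : ℕ) (h : ∀ γ ∈ derivedSeries Γ j, ∀ v, (hol γ).linear v = v) :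
    VS hol := by
  refine ⟨⊤, inferInstance, solvable_map hol ⊤ (j + 1) ?_⟩
  have h1 : ∀ γ ∈ derivedSeries (⊤ : Subgroup Γ) j, ∀ v, (hol (γ : Γ)).linear v = v := by
    intro γ hγ
    apply h
    exact map_derivedSeries_le_derivedSeries (⊤ : Subgroup Γ).subtype j ⟨γ, hγ, rfl⟩
  have h2 : ∀ γ ∈ derivedSeries (⊤ : Subgroup Γ) j, Tr hol ⊤ (γ : Γ) := fun γ hγ =>
    ⟨fun _ => Submodule.mem_top, fun v _ => h1 γ hγ v⟩
  have h3 : derivedSeries (⊤ : Subgroup Γ) (j + 1) ≤ (hol.comp (⊤ : Subgroup Γ).subtype).ker := by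
    rw [derivedSeries_succ, Subgroup.commutator_le]
    intro a ha b hb
    exact Tr.comm (h2 a ha) (h2 b hb)
  exact fun γ hγ => h3 hγ

end

theorem bdd_section {E Q : Type} [NormedAddCommGroup E] [NormedSpace ℝ E]
    [FiniteDimensional ℝ E] [NormedAddCommGroup Q] [NormedSpace ℝ Q] [FiniteDimensional ℝ Q]
    (π : E →ₗ[ℝ] Q) (hs : Function.Surjective π) :
    ∃ (s : Q →ₗ[ℝ] E) (C : ℝ), 0 ≤ C ∧ (∀ y, π (s y) = y) ∧ (∀ y, ‖s y‖ ≤ C * ‖y‖) ∧
      ∀ x, ‖π x‖ ≤ C * ‖x‖ := by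
  obtain ⟨s, hs'⟩ := π.exists_rightInverse_of_surjective (LinearMap.range_eq_top.2 hs)
  let s' := LinearMap.toContinuousLinearMap s
  let π' := LinearMap.toContinuousLinearMap π
  refine ⟨s, max ‖s'‖ ‖π'‖, le_max_of_le_left (norm_nonneg _), fun y => ?_, fun y => ?_,
    fun x => ?_⟩
  · have := congrArg (fun f : Q →ₗ[ℝ] Q => f y) hs'
    exact this
  · exact (s'.le_opNorm y).trans
      (mul_le_mul_of_nonneg_right (le_max_left _ _) (norm_nonneg _))
  · exact (π'.le_opNorm x).trans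
      (mul_le_mul_of_nonneg_right (le_max_right _ _) (norm_nonneg _))

theorem final {Γ E : Type} [Group Γ] [NormedAddCommGroup E] [NormedSpace ℝ E]
    [FiniteDimensional ℝ E] {hol : Γ →* (E ≃ᵃ[ℝ] E)} {Ω : Set E} (D : Dom hol Ω)
    (hne : Ω.Nonempty) (hdet : ∀ γ, |LinearMap.det ((hol γ).linear : E →ₗ[ℝ] E)| = 1)
    {V : ℕ → Submodule ℝ E} {m : ℕ} (T : Tower hol V m) (h : CA hol (V m) ∨ SA hol (V m)) :
    Ω = univ ∧ VS hol := by
  obtain ⟨Q, i1, i2, i3, π, hol₁, q⟩ := tower_quot m D hne T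
  suffices key : π '' Ω = univ ∧ VS hol₁.range.subtype from ⟨q.full key.1, q.vs key.2⟩
  let := q.dom.action
  have hdet₁ : ∀ γ : hol₁.range, |LinearMap.det ((hol₁.range.subtype γ).linear :
      Q →ₗ[ℝ] Q)| = 1 := by
    rintro ⟨_, γ, rfl⟩
    rw [← hdet γ, ← q.det γ]
    rfl
  have DQ := q.dom.data hdet₁
  have hneQ : Nonempty (π '' Ω) := (hne.image π).to_subtype
  have hfull : IsHomeomorph (Subtype.val : (π '' Ω) → Q) → π '' Ω = univ := by
    intro hh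
    rw [eq_univ_iff_forall]
    intro y
    obtain ⟨x, hx⟩ := hh.surjective y
    rw [← hx]
    exact x.2
  rcases h with ⟨S, l, h0, hl, hmono, hinv, C, hC⟩ | ⟨j, hj⟩
  · obtain ⟨s, B, hB, hs1, hs2, hs3⟩ := bdd_section π q.isQuot.surj
    have hle : ∀ i ≤ l, V m ≤ S i := by
      intro i
      induction i with
      | zero => intro _; rw [h0]
      | succ i ih => intro hi; exact (ih (by omega)).trans (hmono i (by omega))
    have hC0 : ∀ i < l, ∀ γ : Γ, ∃ c : ℝ, 0 < c ∧ ∀ v ∈ S (i + 1),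
        (∃ w ∈ S i, ‖(hol γ).linear v - w‖ ≤ |C| * c * ‖v‖) ∧
        ∃ w ∈ S i, ‖(hol γ⁻¹).linear v - w‖ ≤ |C| * c⁻¹ * ‖v‖ := by
      intro i hi γ
      obtain ⟨c, hc, hc'⟩ := hC i hi γ
      refine ⟨c, hc, fun v hv => ?_⟩
      obtain ⟨⟨w, hw, h1⟩, ⟨w', hw', h2⟩⟩ := hc' v hv
      refine ⟨⟨w, hw, h1.trans ?_⟩, ⟨w', hw', h2.trans ?_⟩⟩
      · gcongr; exact le_abs_self C
      · gcongr; exact le_abs_self C
    have hflag : Pool.Agent.N520.RO.ConformalFlag hol₁.range.subtype ⊤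
        (fun i => (S i).map π) l := by
      refine ⟨?_, ?_, ?_, ?_, B * |C| * B, ?_⟩
      · show (S 0).map π = ⊥
        rw [h0, eq_bot_iff]
        rintro _ ⟨x, hx, rfl⟩
        rw [Submodule.mem_bot, q.isQuot.ker]
        exact hx
      · show (S l).map π = ⊤
        rw [hl, Submodule.map_top]
        exact LinearMap.range_eq_top.2 q.isQuot.surj
      · exact fun i hi => Submodule.map_mono (hmono i hi)
      · rintro i hi ⟨_, γ, rfl⟩ - _ ⟨x, hx, rfl⟩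
        exact ⟨_, hinv i hi γ x hx, (q.isQuot.linear γ x).symm⟩
      · rintro i hi ⟨_, γ, rfl⟩ -
        obtain ⟨c, hc, hc'⟩ := hC0 i hi γ
        refine ⟨c, hc, ?_⟩
        rintro _ ⟨x, hx, rfl⟩
        have hsx : s (π x) ∈ S (i + 1) := by
          have h1 : s (π x) - x ∈ V m := (q.isQuot.eq_iff _ _).1 (hs1 (π x))
          have h2 := hle (i + 1) (by omega) h1
          have := (S (i + 1)).add_mem h2 hx
          rwa [sub_add_cancel] at this
        have hest : ∀ (δ : Γ) (d : ℝ) (w : E), 0 ≤ d →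
            ‖(hol δ).linear (s (π x)) - w‖ ≤ |C| * d * ‖s (π x)‖ →
            ‖(hol₁ δ).linear (π x) - π w‖ ≤ B * |C| * B * d * ‖π x‖ := by
          intro δ d w hd hw
          have h1 : (hol₁ δ).linear (π x) = π ((hol δ).linear (s (π x))) := by
            rw [← q.isQuot.linear, hs1]
          rw [h1, ← map_sub]
          calc ‖π ((hol δ).linear (s (π x)) - w)‖
              ≤ B * ‖(hol δ).linear (s (π x)) - w‖ := hs3 _
            _ ≤ B * (|C| * d * ‖s (π x)‖) := mul_le_mul_of_nonneg_left hw hB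
            _ ≤ B * (|C| * d * (B * ‖π x‖)) := by
                gcongr
                exact hs2 _
            _ = B * |C| * B * d * ‖π x‖ := by ring
        obtain ⟨⟨w, hw, h1⟩, ⟨w', hw', h2⟩⟩ := hc' _ hsx
        refine ⟨⟨π w, ⟨w, hw, rfl⟩, hest γ c w hc.le h1⟩,
          ⟨π w', ⟨w', hw', rfl⟩, ?_⟩⟩
        have h3 := hest γ⁻¹ c⁻¹ w' (inv_nonneg.2 hc.le) h2
        have h4 : (hol₁.range.subtype (⟨hol₁ γ, γ, rfl⟩ : hol₁.range)⁻¹) = hol₁ γ⁻¹ := by
          rw [map_inv, map_inv]; rfl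
        rw [h4]
        exact h3
    obtain ⟨h1, h2⟩ := Pool.Agent.N520.RO.quasi (π '' Ω) hol₁.range Q Subtype.val
      hol₁.range.subtype DQ Subtype.val_injective ⊤ inferInstance _ l hflag
    exact ⟨hfull h1, h2⟩
  · -- solvable linear holonomy
    have hlin : ∀ γ ∈ derivedSeries hol₁.range j, ∀ y,
        ((hol₁.range.subtype γ).linear : Q →ₗ[ℝ] Q) y = y := by
      intro γ hγ y
      have h1 := derivedSeries_le_map_derivedSeries hol₁.rangeRestrict_surjective j hγ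
      obtain ⟨δ, hδ, rfl⟩ := h1
      obtain ⟨x, rfl⟩ := q.isQuot.surj y
      show (hol₁ δ).linear (π x) = π x
      rw [q.isQuot.linear, q.isQuot.eq_iff]
      exact hj δ hδ x
    have hvs : VS hol₁.range.subtype := vs_of_linear j fun γ hγ y => hlin γ hγ y
    refine ⟨hfull ?_, hvs⟩
    refine Pool.Agent.Y449.MS.Wrap.main Pool.Agent.Y449.MS.All.finv (π '' Ω) hol₁.range Q
      Subtype.val hol₁.range.subtype DQ Subtype.val_injective ⊤ inferInstance ?_
    refine solvable_map _ ⊤ j ?_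
    intro γ hγ
    have h1 : (γ : hol₁.range) ∈ derivedSeries hol₁.range j :=
      map_derivedSeries_le_derivedSeries (⊤ : Subgroup hol₁.range).subtype j ⟨γ, hγ, rfl⟩
    apply LinearEquiv.ext
    intro y
    exact hlin _ h1 y

end Pool.Agent.U352.AF
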